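import Mathlib
import Pool.Agent.H472.Q2.StmtsSM
import Pool.Graph.R_seed8.H853R3.Task469G

set_option autoImplicit false

/-!
# TaskSM1, part 1: crude bounds and Laplace transforms
-/

open MeasureTheory Set Filter Topology

namespace Pool.Agent.H295.SM1

open Pool.Agent.H469R10.HO Pool.Agent.H13R3.EM Pool.Agent.H472.Q2

/-! ### crude bounds -/

lemma pow_exp (p : ℕ) {e x : ℝ} (he : 0 < e) (hx : 0 ≤ x) :
    x ^ p * Real.exp (-(e * x)) ≤ p.factorial / e ^ p := by
  have h := Real.pow_div_factorial_le_exp (e * x) (by positivity) p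
  have hf : (0 : ℝ) < p.factorial := by exact_mod_cast Nat.factorial_pos p
  rw [Real.exp_neg, ← div_eq_mul_inv, div_le_div_iff₀ (Real.exp_pos _) (by positivity)]
  rw [div_le_iff₀ hf, mul_pow] at h
  linarith

section seq

variable {α u : ℕ → ℝ}

lemma summ_exp (hs : Summable (fun n => |α n|)) (hu : ∀ n, 0 ≤ u n) (p : ℕ) {e : ℝ} (he : 0 < e) :
    Summable (fun n => |α n * u n ^ p| * Real.exp (-(e * u n))) := by
  refine Summable.of_nonneg_of_le (fun n => by positivity) (fun n => ?_)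
    (hs.mul_right (p.factorial / e ^ p))
  rw [abs_mul, abs_of_nonneg (pow_nonneg (hu n) p), mul_assoc]
  exact mul_le_mul_of_nonneg_left (pow_exp p he (hu n)) (abs_nonneg _)

lemma tsum_exp (hs : Summable (fun n => |α n|)) (hu : ∀ n, 0 ≤ u n) (p : ℕ) {e : ℝ} (he : 0 < e) :
    ∑' n, |α n * u n ^ p| * Real.exp (-(e * u n)) ≤ (∑' n, |α n|) * (p.factorial / e ^ p) := by
  rw [← tsum_mul_right]
  refine Summable.tsum_le_tsum (fun n => ?_) (summ_exp hs hu p he) (hs.mul_right _)
  rw [abs_mul, abs_of_nonneg (pow_nonneg (hu n) p), mul_assoc]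
  exact mul_le_mul_of_nonneg_left (pow_exp p he (hu n)) (abs_nonneg _)

end seq

/-- the Dirichlet type series `∑ α_n u_n^p exp (- u_n z)` -/
noncomputable def Th (α u : ℕ → ℝ) (p : ℕ) (z : ℂ) : ℂ :=
  ∑' n, ((α n * u n ^ p : ℝ) : ℂ) * Complex.exp (-((u n : ℂ) * z))

section seq

variable {α u : ℕ → ℝ}

lemma norm_term (p n : ℕ) (z : ℂ) :
    ‖((α n * u n ^ p : ℝ) : ℂ) * Complex.exp (-((u n : ℂ) * z))‖ =
      |α n * u n ^ p| * Real.exp (-(z.re * u n)) := by
  rw [norm_mul, Complex.norm_real, Complex.norm_exp, Real.norm_eq_abs]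
  congr 2
  simp [mul_comm]

lemma Th_summable (hs : Summable (fun n => |α n|)) (hu : ∀ n, 0 ≤ u n) (p : ℕ) {z : ℂ}
    (hz : 0 < z.re) : Summable (fun n => ((α n * u n ^ p : ℝ) : ℂ) * Complex.exp (-((u n : ℂ) * z))) := by
  refine Summable.of_norm ?_
  simp_rw [norm_term]
  exact summ_exp hs hu p hz

lemma Th_norm (hs : Summable (fun n => |α n|)) (hu : ∀ n, 0 ≤ u n) (p : ℕ) {z : ℂ}
    (hz : 0 < z.re) : ‖Th α u p z‖ ≤ (∑' n, |α n|) * (p.factorial / z.re ^ p) := by
  refine le_trans (norm_tsum_le_tsum_norm ?_) ?_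
  · simp_rw [norm_term]
    exact summ_exp hs hu p hz
  · simp_rw [norm_term]
    exact tsum_exp hs hu p hz

lemma Th_diff (hs : Summable (fun n => |α n|)) (hu : ∀ n, 0 ≤ u n) (p : ℕ) :
    DifferentiableOn ℂ (Th α u p) {z : ℂ | 0 < z.re} := by
  intro z hz
  have hz' : 0 < z.re := hz
  have ho : IsOpen {w : ℂ | z.re / 2 < w.re} := isOpen_lt continuous_const Complex.continuous_re
  have h : DifferentiableOn ℂ (Th α u p) {w : ℂ | z.re / 2 < w.re} := by
    refine Complex.differentiableOn_tsum_of_summable_norm (u := fun n => |α n * u n ^ p| *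
      Real.exp (-(z.re / 2 * u n))) (summ_exp hs hu p (by linarith)) (fun n => ?_) ho ?_
    · fun_prop
    · intro n w hw
      rw [norm_term]
      have hw' : z.re / 2 < w.re := hw
      gcongr
      exact hu n
  exact (h.differentiableAt (ho.mem_nhds (by show z.re / 2 < z.re; linarith))).differentiableWithinAt

/-- the theta relation on the right half plane -/
lemma Th_rel (hs : Summable (fun n => |α n|)) (hu : ∀ n, 0 ≤ u n) (p q : ℕ) (sg : ℝ)
    (hθ : ∀ t : ℝ, 0 < t → ∑' n, α n * u n ^ p * Real.exp (-(u n / t)) =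
      sg * t ^ q * ∑' n, α n * u n ^ p * Real.exp (-(u n * t))) {z : ℂ} (hz : 0 < z.re) :
    Th α u p z⁻¹ = sg * z ^ q * Th α u p z := by
  have hreal : ∀ t : ℝ, 0 < t → Th α u p (t : ℂ)⁻¹ = sg * (t : ℂ) ^ q * Th α u p t := by
    intro t ht
    have h := hθ t ht
    have e1 : ∀ s : ℝ, Th α u p (s : ℂ) = ((∑' n, α n * u n ^ p * Real.exp (-(u n * s)) : ℝ) : ℂ) := by
      intro s
      unfold Th
      rw [Complex.ofReal_tsum]
      congr 1
      ext n
      push_cast
      rfl
    have e2 : (t : ℂ)⁻¹ = ((t⁻¹ : ℝ) : ℂ) := by push_cast; rfl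
    rw [e2, e1, e1]
    simp_rw [div_eq_mul_inv] at h
    rw [h]
    push_cast
    ring
  set H : ℂ → ℂ := fun z => Th α u p z⁻¹ - sg * z ^ q * Th α u p z with hH
  have ho : IsOpen {w : ℂ | 0 < w.re} := isOpen_lt continuous_const Complex.continuous_re
  have hne : ∀ w ∈ {w : ℂ | 0 < w.re}, w ≠ 0 := by
    rintro w hw rfl
    simp at hw
  have hinv : MapsTo (fun w : ℂ => w⁻¹) {w : ℂ | 0 < w.re} {w : ℂ | 0 < w.re} := by
    intro w hw
    have hw0 := hne w hw
    show 0 < (w⁻¹).re
    rw [Complex.inv_re]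
    exact div_pos hw (Complex.normSq_pos.2 hw0)
  have hD : DifferentiableOn ℂ H {w : ℂ | 0 < w.re} := by
    apply DifferentiableOn.sub
    · exact (Th_diff hs hu p).comp (fun w hw => (differentiableAt_inv (hne w hw)).differentiableWithinAt) hinv
    · exact DifferentiableOn.mul (by fun_prop) (Th_diff hs hu p)
  have hA : AnalyticOnNhd ℂ H {w : ℂ | 0 < w.re} := hD.analyticOnNhd ho
  have hpre : IsPreconnected {w : ℂ | 0 < w.re} := (convex_halfSpace_re_gt 0).isPreconnected
  have hfreq : ∃ᶠ w in 𝓝[≠] (1 : ℂ), H w = 0 := by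
    have ht : Tendsto (fun x : ℝ => (x : ℂ)) (𝓝[≠] 1) (𝓝[≠] (1 : ℂ)) := by
      rw [tendsto_nhdsWithin_iff]
      refine ⟨?_, ?_⟩
      · have := (Complex.continuous_ofReal.tendsto (1 : ℝ))
        simp only [Complex.ofReal_one] at this
        exact this.mono_left nhdsWithin_le_nhds
      · filter_upwards [self_mem_nhdsWithin] with x hx
        intro h
        have h' : (x : ℂ) = 1 := h
        exact hx (Set.mem_singleton_iff.2 (by exact_mod_cast h'))
    refine ht.frequently ?_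
    apply Eventually.frequently
    have : ∀ᶠ x : ℝ in 𝓝[≠] 1, 0 < x := by
      apply Filter.Eventually.filter_mono nhdsWithin_le_nhds
      exact lt_mem_nhds one_pos
    filter_upwards [this] with x hx
    rw [hH]
    simp only
    rw [hreal x hx, sub_self]
  have := hA.eqOn_zero_of_preconnected_of_frequently_eq_zero hpre (z₀ := 1) (by simp) hfreq hz
  exact sub_eq_zero.1 this

end seq

end Pool.Agent.H295.SM1
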