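import Mathlib

set_option autoImplicit false

/-!
# TaskSM1, part 3: the smoothing function
-/

open MeasureTheory Set Filter Topology Polynomial

namespace Pool.Agent.H295.SM1

lemma poly_bound (K : ℕ) : ∀ q : ℂ[X], ∃ C : ℝ, 0 ≤ C ∧ ∀ z : ℂ, z ≠ 0 → 0 ≤ z.re →
    ‖∫ v in (0:ℝ)..1, (((X * (1 - X)) ^ K * q).eval (v : ℂ)) * Complex.exp (-(z * v))‖ ≤ C / ‖z‖ ^ K := by
  induction K with
  | zero =>
    intro q
    refine ⟨∫ v in (0:ℝ)..1, ‖q.eval (v : ℂ)‖, ?_, ?_⟩
    · apply intervalIntegral.integral_nonneg (by norm_num)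
      intro v _
      positivity
    · intro z hz hz0
      simp only [pow_zero, one_mul, div_one]
      apply intervalIntegral.norm_integral_le_of_norm_le (by norm_num)
      · refine ae_of_all _ ?_
        intro v hv
        rw [norm_mul, Complex.norm_exp]
        have : Real.exp ((-(z * (v : ℂ))).re) ≤ 1 := by
          rw [Real.exp_le_one_iff]
          simp
          have := hv.1
          positivity
        calc ‖q.eval (v : ℂ)‖ * Real.exp ((-(z * (v : ℂ))).re) ≤ ‖q.eval (v : ℂ)‖ * 1 := by gcongr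
          _ = _ := mul_one _
      · apply Continuous.intervalIntegrable
        have : Continuous (fun x : ℂ => q.eval x) := q.continuous
        fun_prop
  | succ K ih =>
    intro q
    obtain ⟨C, hC0, hC⟩ := ih (((K : ℂ[X]) + 1) * (1 - 2 * X) * q + X * (1 - X) * derivative q)
    refine ⟨C, hC0, ?_⟩
    intro z hz hz0
    set P : ℂ[X] := (X * (1 - X)) ^ (K + 1) * q with hP
    have hder : derivative P = (X * (1 - X)) ^ K *
        (((K : ℂ[X]) + 1) * (1 - 2 * X) * q + X * (1 - X) * derivative q) := by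
      rw [hP, derivative_mul, derivative_pow_succ, derivative_mul]
      simp
      ring
    have hd : ∀ v : ℝ, HasDerivAt (fun v : ℝ => P.eval (v : ℂ) * Complex.exp (-(z * v)))
        ((derivative P).eval (v : ℂ) * Complex.exp (-(z * v)) - z * (P.eval (v : ℂ) * Complex.exp (-(z * v)))) v := by
      intro v
      have h1 : HasDerivAt (fun u : ℝ => (u : ℂ)) 1 v := Complex.ofRealCLM.hasDerivAt
      have h2 : HasDerivAt (fun u : ℝ => P.eval (u : ℂ)) ((derivative P).eval (v : ℂ)) v := by
        have := (P.hasDerivAt (v : ℂ)).comp_ofReal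
        exact this
      have h3 := h2.mul (((h1.const_mul z).neg).cexp)
      refine h3.congr_deriv ?_
      simp only [Pi.neg_apply]
      ring
    have c1 : Continuous (fun v : ℝ => (derivative P).eval (v : ℂ) * Complex.exp (-(z * v))) := by
      have : Continuous (fun x : ℂ => (derivative P).eval x) := (derivative P).continuous
      fun_prop
    have c2 : Continuous (fun v : ℝ => P.eval (v : ℂ) * Complex.exp (-(z * v))) := by
      have : Continuous (fun x : ℂ => P.eval x) := P.continuous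
      fun_prop
    have h4 := intervalIntegral.integral_eq_sub_of_hasDerivAt (a := (0:ℝ)) (b := 1) (fun v _ => hd v)
      ((c1.sub (c2.const_mul z)).intervalIntegrable _ _)
    rw [intervalIntegral.integral_sub (c1.intervalIntegrable _ _) ((c2.const_mul z).intervalIntegrable _ _),
      intervalIntegral.integral_const_mul] at h4
    have h5 : P.eval ((1 : ℝ) : ℂ) = 0 := by simp [hP]
    have h6 : P.eval ((0 : ℝ) : ℂ) = 0 := by simp [hP]
    rw [h5, h6, zero_mul, zero_mul, sub_zero, sub_eq_zero, hder] at h4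
    have h7 := hC z hz hz0
    rw [h4, norm_mul] at h7
    have hzn : 0 < ‖z‖ := norm_pos_iff.2 hz
    rw [pow_succ, ← div_div, le_div_iff₀ hzn, mul_comm]
    exact h7

/-- the normalising constant -/
noncomputable def cK (K : ℕ) : ℝ := ∫ v in (0:ℝ)..1, (v * (1 - v)) ^ K

lemma cK_pos (K : ℕ) : 0 < cK K := by
  unfold cK
  apply intervalIntegral.intervalIntegral_pos_of_pos_on
  · apply Continuous.intervalIntegrable
    fun_prop
  · intro x hx
    have h1 := hx.1
    have h2 : 0 < 1 - x := by linarith [hx.2]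
    positivity
  · norm_num

/-- the smoothing function -/
noncomputable def psi (K : ℕ) (v : ℝ) : ℝ := (cK K)⁻¹ * (max 0 (v * (1 - v))) ^ K

lemma psi_cont (K : ℕ) : Continuous (psi K) := by
  unfold psi
  fun_prop

lemma psi_nonneg (K : ℕ) (v : ℝ) : 0 ≤ psi K v := by
  unfold psi
  have := cK_pos K
  positivity

lemma psi_eq (K : ℕ) {v : ℝ} (hv : v ∈ Icc (0:ℝ) 1) : psi K v = (cK K)⁻¹ * (v * (1 - v)) ^ K := by
  unfold psi
  rw [max_eq_right]
  exact mul_nonneg hv.1 (by linarith [hv.2])

lemma psi_zero {K : ℕ} (hK : K ≠ 0) {v : ℝ} (hv : v ∉ Icc (0:ℝ) 1) : psi K v = 0 := by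
  unfold psi
  have : v * (1 - v) ≤ 0 := by
    rw [mem_Icc, not_and_or] at hv
    rcases hv with h | h
    · push Not at h
      nlinarith
    · push Not at h
      nlinarith
  rw [max_eq_left this, zero_pow hK, mul_zero]

lemma psi_int (K : ℕ) : ∫ v in (0:ℝ)..1, psi K v = 1 := by
  have : ∫ v in (0:ℝ)..1, psi K v = ∫ v in (0:ℝ)..1, (cK K)⁻¹ * (v * (1 - v)) ^ K := by
    apply intervalIntegral.integral_congr
    intro v hv
    rw [uIcc_of_le (by norm_num)] at hv
    exact psi_eq K hv
  rw [this, intervalIntegral.integral_const_mul]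
  exact inv_mul_cancel₀ (cK_pos K).ne'

/-- Laplace transform of `psi` -/
noncomputable def Psi (K : ℕ) (z : ℂ) : ℂ := ∫ v in (0:ℝ)..1, (psi K v : ℂ) * Complex.exp (-(z * v))

lemma Psi_bound (K : ℕ) : ∃ C : ℝ, 0 ≤ C ∧ ∀ z : ℂ, z ≠ 0 → 0 ≤ z.re → ‖Psi K z‖ ≤ C / ‖z‖ ^ K := by
  obtain ⟨C, hC0, hC⟩ := poly_bound K 1
  refine ⟨(cK K)⁻¹ * C, by have := cK_pos K; positivity, ?_⟩
  intro z hz hz0
  have h := hC z hz hz0
  have e : Psi K z = (cK K : ℂ)⁻¹ * ∫ v in (0:ℝ)..1, (((X * (1 - X)) ^ K * (1 : ℂ[X])).eval (v : ℂ)) * Complex.exp (-(z * v)) := by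
    unfold Psi
    rw [← intervalIntegral.integral_const_mul]
    apply intervalIntegral.integral_congr
    intro v hv
    rw [uIcc_of_le (by norm_num)] at hv
    simp only
    rw [psi_eq K hv]
    simp
    ring
  rw [e, norm_mul, mul_div_assoc]
  have : ‖(cK K : ℂ)⁻¹‖ = (cK K)⁻¹ := by
    rw [norm_inv, Complex.norm_real, Real.norm_of_nonneg (cK_pos K).le]
  rw [this]
  have := cK_pos K
  gcongr

lemma Psi_one (K : ℕ) {z : ℂ} (hz0 : 0 ≤ z.re) : ‖Psi K z‖ ≤ 1 := by
  rw [← psi_int K]
  unfold Psi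
  apply intervalIntegral.norm_integral_le_of_norm_le (by norm_num)
  · refine ae_of_all _ ?_
    intro v hv
    rw [norm_mul, Complex.norm_exp, Complex.norm_real, Real.norm_of_nonneg (psi_nonneg K v)]
    have : Real.exp ((-(z * (v : ℂ))).re) ≤ 1 := by
      rw [Real.exp_le_one_iff]
      simp
      have := hv.1
      positivity
    calc psi K v * Real.exp ((-(z * (v : ℂ))).re) ≤ psi K v * 1 := by
          have := psi_nonneg K v
          gcongr
      _ = _ := mul_one _
  · exact (psi_cont K).intervalIntegrable _ _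

end Pool.Agent.H295.SM1
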