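import Pool.Agent.H295.SM1.Trans

set_option autoImplicit false

/-!
# TaskSM1, part 5: convolution and Fourier inversion
-/

open MeasureTheory Set Filter Topology FourierTransform Convolution

namespace Pool.Agent.H295.SM1

open Pool.Agent.H469R10.HO Pool.Agent.H13R3.EM Pool.Agent.H472.Q2

variable {m : ℕ} {c : ℝ} {α : ℕ → ℝ}

/-- the point `η + 2 π i ξ` -/
noncomputable def zz (η ξ : ℝ) : ℂ := (η : ℂ) + 2 * Real.pi * ξ * Complex.I

lemma zz_re (η ξ : ℝ) : (zz η ξ).re = η := by simp [zz]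

lemma zz_im (η ξ : ℝ) : (zz η ξ).im = 2 * Real.pi * ξ := by simp [zz]

/-- damped `TT` -/
noncomputable def gg (m : ℕ) (c : ℝ) (α : ℕ → ℝ) (Y η : ℝ) : ℝ → ℂ :=
  (Ioi (0 : ℝ)).indicator (fun u => (TT m c α Y u : ℂ) * Complex.exp (-((η : ℂ) * u)))

lemma gg_int (hc : 0 < c) (hs : Summable (fun n => |α n|)) (Y : ℝ) {η : ℝ} (hη : 0 < η) :
    Integrable (gg m c α Y η) := by
  unfold gg
  rw [integrable_indicator_iff measurableSet_Ioi]
  exact TT_int hc hs Y (by simpa using hη)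

lemma char_mul (η ξ v : ℝ) : Complex.exp (↑(-2 * Real.pi * inner ℝ v ξ) * Complex.I) * Complex.exp (-((η : ℂ) * v)) =
    Complex.exp (-(zz η ξ * v)) := by
  rw [← Complex.exp_add]
  congr 1
  simp [zz]
  ring

lemma gg_fourier (hc : 0 < c) (hs : Summable (fun n => |α n|)) (Y : ℝ) {η : ℝ} (hη : 0 < η) (ξ : ℝ) :
    𝓕 (gg m c α Y η) ξ = LL m c α Y (zz η ξ) := by
  rw [Real.fourier_eq', ← lap_TT hc hs Y (by rw [zz_re]; exact hη), ← integral_indicator measurableSet_Ioi]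
  congr 1
  ext v
  unfold gg
  by_cases hv : v ∈ Ioi (0 : ℝ)
  · rw [indicator_of_mem hv, indicator_of_mem hv, smul_eq_mul, ← char_mul]
    ring
  · rw [indicator_of_notMem hv, indicator_of_notMem hv, smul_zero]

/-- damped kernel -/
noncomputable def fk (K : ℕ) (θ η : ℝ) (v : ℝ) : ℂ :=
  ((θ⁻¹ * psi K (θ⁻¹ * v) : ℝ) : ℂ) * Complex.exp (-((η : ℂ) * v))

lemma fk_cont (K : ℕ) (θ η : ℝ) : Continuous (fk K θ η) := by
  unfold fk
  have := psi_cont K
  fun_prop

lemma fk_zero {K : ℕ} (hK : K ≠ 0) {θ η : ℝ} (hθ : 0 < θ) {v : ℝ} (hv : v ∉ Icc (0 : ℝ) θ) : fk K θ η v = 0 := by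
  unfold fk
  rw [psi_zero hK, mul_zero]
  · simp
  · intro h
    apply hv
    have h1 := h.1
    have h2 := h.2
    constructor
    · by_contra h3
      push Not at h3
      have : θ⁻¹ * v < 0 := mul_neg_of_pos_of_neg (by positivity) h3
      linarith
    · rw [inv_mul_le_iff₀ hθ] at h2
      linarith

lemma fk_supp {K : ℕ} (hK : K ≠ 0) {θ : ℝ} (η : ℝ) (hθ : 0 < θ) : HasCompactSupport (fk K θ η) :=
  HasCompactSupport.intro isCompact_Icc (fun _ hv => fk_zero hK hθ hv)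

lemma fk_int {K : ℕ} (hK : K ≠ 0) {θ : ℝ} (η : ℝ) (hθ : 0 < θ) : Integrable (fk K θ η) :=
  (fk_cont K θ η).integrable_of_hasCompactSupport (fk_supp hK η hθ)

/-- integrals against `psi` over the line reduce to `[0,1]` -/
lemma psi_line {K : ℕ} (hK : K ≠ 0) (F : ℝ → ℂ) :
    ∫ s, (psi K s : ℂ) * F s = ∫ s in (0:ℝ)..1, (psi K s : ℂ) * F s := by
  rw [intervalIntegral.integral_of_le (by norm_num), ← integral_Icc_eq_integral_Ioc,
    setIntegral_eq_integral_of_forall_compl_eq_zero]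
  intro x hx
  rw [psi_zero hK hx]
  simp

/-- rescaling -/
lemma fk_line {K : ℕ} (hK : K ≠ 0) {θ : ℝ} (η : ℝ) (hθ : 0 < θ) (F : ℝ → ℂ) :
    ∫ v, fk K θ η v * F v = ∫ s in (0:ℝ)..1, (psi K s : ℂ) * (Complex.exp (-((η : ℂ) * (θ * s : ℝ))) * F (θ * s)) := by
  rw [← psi_line hK]
  have h := MeasureTheory.Measure.integral_comp_mul_left
    (fun s : ℝ => (psi K s : ℂ) * (Complex.exp (-((η : ℂ) * (θ * s : ℝ))) * F (θ * s))) θ⁻¹
  rw [inv_inv, abs_of_pos hθ] at h
  have h2 : ∫ v, fk K θ η v * F v = θ⁻¹ • ∫ x : ℝ, (psi K (θ⁻¹ * x) : ℂ) *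
      (Complex.exp (-((η : ℂ) * (θ * (θ⁻¹ * x) : ℝ))) * F (θ * (θ⁻¹ * x))) := by
    rw [← integral_smul]
    congr 1
    ext v
    have : θ * (θ⁻¹ * v) = v := by field_simp
    rw [this]
    unfold fk
    rw [Complex.real_smul]
    push_cast
    ring
  rw [h2, h, smul_smul, inv_mul_cancel₀ hθ.ne', one_smul]

lemma fk_fourier {K : ℕ} (hK : K ≠ 0) {θ : ℝ} (η : ℝ) (hθ : 0 < θ) (ξ : ℝ) :
    𝓕 (fk K θ η) ξ = Psi K ((θ : ℝ) * zz η ξ) := by
  rw [Real.fourier_eq']
  have e1 : ∀ v : ℝ, Complex.exp (↑(-2 * Real.pi * inner ℝ v ξ) * Complex.I) • fk K θ η v =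
      fk K θ η v * Complex.exp (↑(-2 * Real.pi * inner ℝ v ξ) * Complex.I) := by
    intro v
    rw [smul_eq_mul, mul_comm]
  simp_rw [e1]
  rw [fk_line hK η hθ (fun v => Complex.exp (↑(-2 * Real.pi * inner ℝ v ξ) * Complex.I))]
  unfold Psi
  apply intervalIntegral.integral_congr
  intro s _
  simp only
  rw [mul_comm (Complex.exp (-((η : ℂ) * (θ * s : ℝ)))), char_mul]
  congr 2
  push_cast
  ring

/-- the smoothed `TT` is bounded -/
lemma TT_smooth {K : ℕ} (hK : K ≠ 0) (hc : 0 < c) (hs : Summable (fun n => |α n|)) (Y : ℝ) {η θ C : ℝ}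
    (hη : 0 < η) (hθ : 0 < θ) (hb : ∀ ξ : ℝ, ‖LL m c α Y (zz η ξ) * Psi K (θ * zz η ξ)‖ ≤ C / (1 + (zz η ξ).im ^ 2))
    {u : ℝ} (hu : θ < u) : |∫ v in (0:ℝ)..1, psi K v * TT m c α Y (u - θ * v)| ≤ Real.pi * C * Real.exp (η * u) := by
  have hf := fk_int (K := K) hK η hθ
  have hg := gg_int (m := m) hc hs Y hη
  have hC : 0 ≤ C := by
    have := le_trans (norm_nonneg _) (hb 0)
    have h2 : (0 : ℝ) < 1 + (zz η 0).im ^ 2 := by positivity
    by_contra h
    push Not at h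
    have := div_neg_of_neg_of_pos h h2
    linarith
  set L : ℂ →L[ℂ] ℂ →L[ℂ] ℂ := ContinuousLinearMap.mul ℂ ℂ with hL
  set h : ℝ → ℂ := fk K θ η ⋆[L, volume] gg m c α Y η with hh
  have hhc : Continuous h := HasCompactSupport.continuous_convolution_left L (fk_supp hK η hθ) (fk_cont K θ η)
    hg.locallyIntegrable
  have hhi : Integrable h := hf.integrable_convolution L hg
  have hF : ∀ ξ, 𝓕 h ξ = Psi K (θ * zz η ξ) * LL m c α Y (zz η ξ) := by
    intro ξ
    rw [hh, hL, Real.fourier_mul_convolution_eq hf hg, fk_fourier hK η hθ, gg_fourier hc hs Y hη]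
  have hFc : Continuous (𝓕 h) := VectorFourier.fourierIntegral_continuous Real.continuous_fourierChar
      (innerSL ℝ).continuous₂ hhi
  have hFb : ∀ ξ, ‖𝓕 h ξ‖ ≤ C * (1 + ξ ^ 2)⁻¹ := by
    intro ξ
    rw [hF, mul_comm]
    refine le_trans (hb ξ) ?_
    rw [zz_im, ← div_eq_mul_inv]
    have h1 : ξ ^ 2 ≤ (2 * Real.pi * ξ) ^ 2 := by
      rw [mul_pow]
      have : (1 : ℝ) ≤ (2 * Real.pi) ^ 2 := one_le_pow₀ (by linarith [Real.pi_gt_three])
      nlinarith [sq_nonneg ξ]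
    apply div_le_div_of_nonneg_left hC (by positivity)
    linarith
  have hFi : Integrable (𝓕 h) := by
    refine Integrable.mono' ((integrable_inv_one_add_sq).const_mul C) hFc.aestronglyMeasurable ?_
    exact ae_of_all _ hFb
  have hinv := congrFun (hhc.fourierInv_fourier_eq hhi hFi) u
  have hnorm : ‖h u‖ ≤ Real.pi * C := by
    rw [← hinv, Real.fourierInv_eq']
    refine le_trans (norm_integral_le_integral_norm _) ?_
    have h2 : ∫ x : ℝ, C * (1 + x ^ 2)⁻¹ = Real.pi * C := by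
      rw [integral_const_mul, integral_univ_inv_one_add_sq, mul_comm]
    rw [← h2]
    apply integral_mono_of_nonneg (ae_of_all _ (fun _ => norm_nonneg _)) ((integrable_inv_one_add_sq).const_mul C)
    refine ae_of_all _ (fun ξ => ?_)
    simp only
    rw [norm_smul, Complex.norm_exp_ofReal_mul_I, one_mul]
    exact hFb ξ
  have hval : h u = Complex.exp (-((η : ℂ) * u)) * ((∫ v in (0:ℝ)..1, psi K v * TT m c α Y (u - θ * v) : ℝ) : ℂ) := by
    have e1 : h u = ∫ v, fk K θ η v * gg m c α Y η (u - v) := rfl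
    rw [e1, fk_line hK η hθ (fun v => gg m c α Y η (u - v)), ← intervalIntegral.integral_ofReal,
      ← intervalIntegral.integral_const_mul]
    apply intervalIntegral.integral_congr
    intro s hs'
    rw [uIcc_of_le (by norm_num)] at hs'
    have hpos : u - θ * s ∈ Ioi (0 : ℝ) := by
      have : θ * s ≤ θ * 1 := by
        have := hs'.2
        gcongr
      show 0 < u - θ * s
      linarith
    simp only [gg]
    rw [indicator_of_mem hpos]
    have e2 : Complex.exp (-((η : ℂ) * (θ * s : ℝ))) * Complex.exp (-((η : ℂ) * (u - θ * s : ℝ))) =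
        Complex.exp (-((η : ℂ) * u)) := by
      rw [← Complex.exp_add]
      congr 1
      push_cast
      ring
    calc (psi K s : ℂ) * (Complex.exp (-((η : ℂ) * (θ * s : ℝ))) * ((TT m c α Y (u - θ * s) : ℂ) *
          Complex.exp (-((η : ℂ) * (u - θ * s : ℝ)))))
        = (Complex.exp (-((η : ℂ) * (θ * s : ℝ))) * Complex.exp (-((η : ℂ) * (u - θ * s : ℝ)))) *
          ((psi K s : ℂ) * (TT m c α Y (u - θ * s) : ℂ)) := by ring
      _ = _ := by rw [e2]; push_cast; ring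
  rw [hval, norm_mul, Complex.norm_real, Complex.norm_exp, Real.norm_eq_abs] at hnorm
  have e3 : (-((η : ℂ) * u)).re = -(η * u) := by simp
  rw [e3, Real.exp_neg, inv_mul_le_iff₀ (Real.exp_pos _)] at hnorm
  linarith

end Pool.Agent.H295.SM1
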