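import Pool.Agent.H295.SM1.Basic

set_option autoImplicit false

/-!
# TaskSM1, part 2: Laplace transforms of `GG`, `BB`, `MS`
-/

open MeasureTheory Set Filter Topology

namespace Pool.Agent.H295.SM1

open Pool.Agent.H469R10.HO Pool.Agent.H13R3.EM Pool.Agent.H472.Q2

variable {m : ℕ} {c : ℝ} {α : ℕ → ℝ}

lemma lamQ_pos (m : ℕ) : 0 < lamQ m := by unfold lamQ; positivity

lemma uu_nonneg (hc : 0 < c) (n : ℕ) : 0 ≤ uu c (lamQ m) n := by
  unfold uu; positivity

lemma uu_zero : uu c (lamQ m) 0 = 0 := by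
  unfold uu
  have := lamQ_pos m
  rw [Nat.cast_zero, Real.zero_rpow (by positivity), mul_zero]

lemma le_floor_iff (hc : 0 < c) {x : ℝ} (hx : 0 ≤ x) (n : ℕ) :
    n ≤ ⌊(x / c) ^ (lamQ m)⌋₊ ↔ uu c (lamQ m) n ≤ x := by
  have hl := lamQ_pos m
  have hxc : 0 ≤ x / c := by positivity
  rw [Nat.le_floor_iff (by positivity)]
  unfold uu
  rw [← le_div_iff₀' hc, one_div]
  rw [Real.rpow_inv_le_iff_of_pos (by positivity) hxc hl]

lemma mem_Icc_iff (hc : 0 < c) {x : ℝ} (hx : 0 ≤ x) (n : ℕ) :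
    n ∈ Finset.Icc 1 ⌊(x / c) ^ (lamQ m)⌋₊ ↔ 1 ≤ n ∧ uu c (lamQ m) n ≤ x := by
  rw [Finset.mem_Icc, le_floor_iff hc hx]

/-- sums over `0 < u_n ≤ x` -/
lemma sum_eq_tsum (hc : 0 < c) {x : ℝ} (hx : 0 ≤ x) {R : Type*} [NormedField R] (f : ℕ → R) (h0 : f 0 = 0) :
    HasSum (fun n => if uu c (lamQ m) n ≤ x then f n else 0)
      (∑ n ∈ Finset.Icc 1 ⌊(x / c) ^ (lamQ m)⌋₊, f n) := by
  have : ∑ n ∈ Finset.Icc 1 ⌊(x / c) ^ (lamQ m)⌋₊, f n =
      ∑ n ∈ Finset.Icc 1 ⌊(x / c) ^ (lamQ m)⌋₊, (if uu c (lamQ m) n ≤ x then f n else 0) := by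
    apply Finset.sum_congr rfl
    intro n hn
    rw [if_pos ((mem_Icc_iff hc hx n).1 hn).2]
  rw [this]
  apply hasSum_sum_of_ne_finset_zero
  intro n hn
  rw [mem_Icc_iff hc hx] at hn
  by_cases h1 : 1 ≤ n
  · rw [if_neg]
    intro h
    exact hn ⟨h1, h⟩
  · have : n = 0 := by omega
    subst this
    simp [h0]

lemma GG_meas : Measurable (GG m c α) := by
  unfold GG
  have h1 : Measurable (fun u : ℝ => ⌊(u / c) ^ (lamQ m)⌋₊) := by
    apply Nat.measurable_floor.comp
    fun_prop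
  exact (measurable_from_top (f := fun N : ℕ => ∑ n ∈ Finset.Icc 1 N, α n * uu c (lamQ m) n ^ (2 * m + 1))).comp h1

lemma GG_bound (hc : 0 < c) (hs : Summable (fun n => |α n|)) {x : ℝ} (hx : 0 ≤ x) :
    |GG m c α x| ≤ (∑' n, |α n|) * x ^ (2 * m + 1) := by
  unfold GG
  refine le_trans (Finset.abs_sum_le_sum_abs _ _) ?_
  rw [← tsum_mul_right]
  refine le_trans (Finset.sum_le_sum (g := fun n => |α n| * x ^ (2 * m + 1)) (fun n hn => ?_))
    ((hs.mul_right _).sum_le_tsum _ (fun n _ => by positivity))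
  have h := ((mem_Icc_iff hc hx n).1 hn).2
  have h0 := uu_nonneg (m := m) hc n
  rw [abs_mul, abs_of_nonneg (pow_nonneg h0 _)]
  gcongr

lemma sumabs_bound (hc : 0 < c) (hs : Summable (fun n => |α n|)) {x : ℝ} (hx : 0 ≤ x) :
    ∑ n ∈ Finset.Icc 1 ⌊(x / c) ^ (lamQ m)⌋₊, |α n * uu c (lamQ m) n ^ (2 * m + 1)| ≤
      (∑' n, |α n|) * x ^ (2 * m + 1) := by
  rw [← tsum_mul_right]
  refine le_trans (Finset.sum_le_sum (g := fun n => |α n| * x ^ (2 * m + 1)) (fun n hn => ?_))
    ((hs.mul_right _).sum_le_tsum _ (fun n _ => by positivity))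
  have h := ((mem_Icc_iff hc hx n).1 hn).2
  have h0 := uu_nonneg (m := m) hc n
  rw [abs_mul, abs_of_nonneg (pow_nonneg h0 _)]
  gcongr

/-- integrability of polynomially bounded functions against `exp (-z x)` -/
lemma int_of_bound {f : ℝ → ℝ} (hf : Measurable f) {C : ℝ} {k : ℕ} (hb : ∀ x, 0 ≤ x → |f x| ≤ C * x ^ k)
    {z : ℂ} (hz : 0 < z.re) : IntegrableOn (fun x : ℝ => (f x : ℂ) * Complex.exp (-(z * x))) (Ioi 0) := by
  have h1 := (Pool.Agent.H853R3.Bol.integ k z hz).norm.const_mul C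
  refine Integrable.mono' h1 ?_ ?_
  · apply Measurable.aestronglyMeasurable
    fun_prop
  · refine (ae_restrict_mem measurableSet_Ioi).mono ?_
    intro x hx
    have hx0 : (0 : ℝ) < x := hx
    have := hb x hx0.le
    rw [norm_mul, norm_mul, norm_pow, Complex.norm_real, Complex.norm_real, Real.norm_eq_abs,
      Real.norm_of_nonneg hx0.le, ← mul_assoc]
    gcongr

lemma lap_const {a : ℝ} (ha : 0 ≤ a) {z : ℂ} (hz : 0 < z.re) (A : ℝ) :
    Integrable (fun x : ℝ => (if a ≤ x then (A : ℂ) else 0) * Complex.exp (-(z * x))) (volume.restrict (Ioi 0)) ∧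
    ∫ x in Ioi (0 : ℝ), (if a ≤ x then (A : ℂ) else 0) * Complex.exp (-(z * x)) =
      (A : ℂ) * Complex.exp (-((a : ℂ) * z)) / z ∧
    ∫ x in Ioi (0 : ℝ), ‖(if a ≤ x then (A : ℂ) else 0) * Complex.exp (-(z * x))‖ =
      |A| * Real.exp (-(z.re * a)) / z.re := by
  have hi : IntegrableOn (fun x : ℝ => Complex.exp (-(z * x))) (Ioi 0) := by
    have := Pool.Agent.H853R3.Bol.integ 0 z hz
    simpa using this
  have hz0 : z ≠ 0 := by
    intro h
    simp [h] at hz
  have e1 : (fun x : ℝ => (if a ≤ x then (A : ℂ) else 0) * Complex.exp (-(z * x))) =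
      (Ici a).indicator (fun x : ℝ => (A : ℂ) * Complex.exp (-(z * x))) := by
    ext x
    by_cases hx : a ≤ x
    · simp [hx]
    · simp [hx]
  have e2 : (fun x : ℝ => ‖(if a ≤ x then (A : ℂ) else 0) * Complex.exp (-(z * x))‖) =
      (Ici a).indicator (fun x : ℝ => |A| * Real.exp (-z.re * x)) := by
    ext x
    by_cases hx : a ≤ x
    · simp [hx, Complex.norm_exp]
    · simp [hx]
  have hset : (Ioi (0 : ℝ) ∩ Ici a : Set ℝ) =ᵐ[volume] (Ioi a : Set ℝ) := by
    have h1 : (Ioi (0 : ℝ) ∩ Ici a : Set ℝ) =ᵐ[volume] (Ioi (0 : ℝ) ∩ Ioi a : Set ℝ) :=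
      (ae_eq_refl _).inter Ioi_ae_eq_Ici.symm
    have h2 : (Ioi (0 : ℝ) ∩ Ioi a : Set ℝ) = Ioi a := by
      rw [Ioi_inter_Ioi, max_eq_right ha]
    rw [h2] at h1
    exact h1
  refine ⟨?_, ?_, ?_⟩
  · rw [e1]
    exact Integrable.indicator (hi.const_mul _) measurableSet_Ici
  · rw [e1, integral_indicator measurableSet_Ici, Measure.restrict_restrict measurableSet_Ici,
      inter_comm, Measure.restrict_congr_set hset, integral_const_mul]
    have h := integral_exp_mul_complex_Ioi (a := -z) (by simpa using hz) a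
    have e : ∀ u : ℝ, Complex.exp (-(z * u)) = Complex.exp (-z * u) := by
      intro u; congr 1; ring
    simp_rw [e]
    rw [h]
    rw [neg_div_neg_eq]
    rw [show -z * (a : ℂ) = -(a * z) by ring]
    ring
  · rw [e2, integral_indicator measurableSet_Ici, Measure.restrict_restrict measurableSet_Ici,
      inter_comm, Measure.restrict_congr_set hset, integral_const_mul]
    have h := integral_exp_mul_Ioi (a := -z.re) (by simpa using hz) a
    rw [h, neg_div_neg_eq]
    rw [show -z.re * a = -(z.re * a) by ring]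
    ring

/-- Laplace transform of the summatory function -/
lemma lap_GG (hc : 0 < c) (hs : Summable (fun n => |α n|)) {z : ℂ} (hz : 0 < z.re) :
    ∫ x in Ioi (0 : ℝ), (GG m c α x : ℂ) * Complex.exp (-(z * x)) =
      Th α (uu c (lamQ m)) (2 * m + 1) z / z := by
  set u := uu c (lamQ m) with hu
  set F : ℕ → ℝ → ℂ := fun n x => (if u n ≤ x then ((α n * u n ^ (2 * m + 1) : ℝ) : ℂ) else 0) *
    Complex.exp (-(z * x)) with hF
  have h1 : ∀ n, Integrable (F n) (volume.restrict (Ioi 0)) := fun n =>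
    (lap_const (uu_nonneg hc n) hz _).1
  have h2 : Summable (fun n => ∫ x in Ioi (0 : ℝ), ‖F n x‖) := by
    have : (fun n => ∫ x in Ioi (0 : ℝ), ‖F n x‖) =
        fun n => |α n * u n ^ (2 * m + 1)| * Real.exp (-(z.re * u n)) / z.re := by
      ext n
      exact (lap_const (uu_nonneg hc n) hz _).2.2
    rw [this]
    exact (summ_exp hs (uu_nonneg hc) (2 * m + 1) hz).div_const _
  have h3 := hasSum_integral_of_summable_integral_norm h1 h2
  have h4 : ∫ x in Ioi (0 : ℝ), (∑' n, F n x) =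
      ∫ x in Ioi (0 : ℝ), (GG m c α x : ℂ) * Complex.exp (-(z * x)) := by
    apply setIntegral_congr_fun measurableSet_Ioi
    intro x hx
    have hx0 : (0 : ℝ) ≤ x := le_of_lt hx
    simp only [hF]
    rw [tsum_mul_right]
    congr 1
    have := (sum_eq_tsum (m := m) (c := c) hc hx0 (fun n => ((α n * u n ^ (2 * m + 1) : ℝ) : ℂ)) (by
      simp [hu, uu_zero])).tsum_eq
    rw [this]
    unfold GG
    rw [Complex.ofReal_sum]
  rw [h4] at h3
  have h5 : HasSum (fun n => ∫ x in Ioi (0 : ℝ), F n x) (Th α u (2 * m + 1) z / z) := by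
    have : (fun n => ∫ x in Ioi (0 : ℝ), F n x) =
        fun n => ((α n * u n ^ (2 * m + 1) : ℝ) : ℂ) * Complex.exp (-((u n : ℂ) * z)) / z := by
      ext n
      exact (lap_const (uu_nonneg hc n) hz _).2.1
    rw [this]
    exact (Th_summable hs (uu_nonneg hc) (2 * m + 1) hz).hasSum.div_const _
  exact h3.unique h5

/-- Laplace transform of the Bessel type function -/
lemma lap_BB (m : ℕ) {w : ℝ} (hw : 0 ≤ w) {z : ℂ} (hz : 0 < z.re) :
    ∫ x in Ioi (0 : ℝ), (BB m w x : ℂ) * Complex.exp (-(z * x)) =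
      (z ^ (2 * m + 3))⁻¹ * Complex.exp (-((w : ℂ) * z⁻¹)) := by
  have hz0 : z ≠ 0 := by
    intro h
    simp [h] at hz
  set F : ℕ → ℝ → ℂ := fun k x => (((-w) ^ k / (k.factorial * (k + (2 * m + 2)).factorial) : ℝ) : ℂ) *
    ((x : ℂ) ^ (k + (2 * m + 2)) * Complex.exp (-(z * x))) with hF
  have h1 : ∀ k, Integrable (F k) (volume.restrict (Ioi 0)) := fun k =>
    (Pool.Agent.H853R3.Bol.integ _ z hz).const_mul _
  have h2 : Summable (fun k => ∫ x in Ioi (0 : ℝ), ‖F k x‖) := by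
    have e : (fun k => ∫ x in Ioi (0 : ℝ), ‖F k x‖) =
        fun k => (w / z.re) ^ k / k.factorial * (1 / z.re ^ (2 * m + 3)) := by
      ext k
      have hg := Pool.Agent.H853R3.Bol.gam (k + (2 * m + 2)) (z.re : ℂ) (by simpa using hz)
      have e3 : ∫ x in Ioi (0 : ℝ), ‖F k x‖ = ∫ x in Ioi (0 : ℝ),
          (w ^ k / (k.factorial * (k + (2 * m + 2)).factorial)) * (x ^ (k + (2 * m + 2)) * Real.exp (-(z.re * x))) := by
        apply setIntegral_congr_fun measurableSet_Ioi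
        intro x hx
        have hx0 : (0 : ℝ) < x := hx
        simp only [hF]
        rw [norm_mul, norm_mul, norm_pow, Complex.norm_real, Complex.norm_real, Complex.norm_exp,
          Real.norm_of_nonneg hx0.le, norm_div, norm_pow, norm_neg, Real.norm_of_nonneg hw]
        simp
      have e4 : ∫ x in Ioi (0 : ℝ), (x ^ (k + (2 * m + 2)) * Real.exp (-(z.re * x))) =
          ((k + (2 * m + 2)).factorial : ℝ) / z.re ^ (k + (2 * m + 2) + 1) := by
        have : ((∫ x in Ioi (0 : ℝ), (x ^ (k + (2 * m + 2)) * Real.exp (-(z.re * x))) : ℝ) : ℂ) =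
            (((k + (2 * m + 2)).factorial : ℝ) / z.re ^ (k + (2 * m + 2) + 1) : ℝ) := by
          rw [← integral_complex_ofReal]
          push_cast
          exact hg
        exact_mod_cast this
      rw [e3, integral_const_mul, e4]
      have : z.re ≠ 0 := hz.ne'
      have hf1 : ((k.factorial : ℕ) : ℝ) ≠ 0 := by exact_mod_cast (Nat.factorial_ne_zero k)
      have hf2 : (((k + (2 * m + 2)).factorial : ℕ) : ℝ) ≠ 0 := by exact_mod_cast (Nat.factorial_ne_zero _)
      rw [div_pow]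
      field_simp
      ring
    rw [e]
    exact (Real.summable_pow_div_factorial _).mul_right _
  have h3 := hasSum_integral_of_summable_integral_norm h1 h2
  have h4 : ∫ x in Ioi (0 : ℝ), (∑' n, F n x) =
      ∫ x in Ioi (0 : ℝ), (BB m w x : ℂ) * Complex.exp (-(z * x)) := by
    apply setIntegral_congr_fun measurableSet_Ioi
    intro x hx
    simp only [hF]
    unfold BB Pool.Agent.X88.Bessel.A Pool.Agent.X88.Bessel.G
    rw [Complex.ofReal_mul, Complex.ofReal_tsum, ← tsum_mul_left, ← tsum_mul_right]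
    congr 1
    ext k
    have hg : Real.Gamma ((k : ℝ) + (2 * m + 2) + 1) = ((k + (2 * m + 2)).factorial : ℝ) := by
      rw [← Real.Gamma_nat_eq_factorial]
      push_cast
      ring_nf
    rw [hg]
    push_cast
    ring
  rw [h4] at h3
  have h5 : HasSum (fun k => ∫ x in Ioi (0 : ℝ), F k x)
      ((z ^ (2 * m + 3))⁻¹ * Complex.exp (-((w : ℂ) * z⁻¹))) := by
    have e : (fun k => ∫ x in Ioi (0 : ℝ), F k x) =
        fun k : ℕ => (z ^ (2 * m + 3))⁻¹ * ((-((w : ℂ) * z⁻¹)) ^ k / k.factorial) := by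
      ext k
      simp only [hF]
      rw [integral_const_mul, Pool.Agent.H853R3.Bol.gam _ z hz]
      have hf1 : ((k.factorial : ℕ) : ℂ) ≠ 0 := by exact_mod_cast (Nat.factorial_ne_zero k)
      have hf2 : (((k + (2 * m + 2)).factorial : ℕ) : ℂ) ≠ 0 := by exact_mod_cast (Nat.factorial_ne_zero _)
      push_cast
      rw [show -((w : ℂ) * z⁻¹) = (-w) * z⁻¹ by ring, mul_pow, inv_pow]
      field_simp
      ring
    rw [e]
    apply HasSum.mul_left
    have := NormedSpace.expSeries_div_hasSum_exp (𝔸 := ℂ) (-((w : ℂ) * z⁻¹))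
    rw [← Complex.exp_eq_exp_ℂ] at this
    exact this
  exact h3.unique h5

end Pool.Agent.H295.SM1
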