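import Pool.Agent.H295.SM1.Inv

set_option autoImplicit false

/-!
# TaskSM1, part 6: local variation of `GG`
-/

open MeasureTheory Set Filter Topology

namespace Pool.Agent.H295.SM1

open Pool.Agent.H469R10.HO Pool.Agent.H13R3.EM Pool.Agent.H472.Q2

variable {m : ℕ} {c : ℝ} {α : ℕ → ℝ}

/-- cell of `n` -/
noncomputable def fl (m : ℕ) (c : ℝ) (n : ℕ) : ℕ := ⌊uu c (lamQ m) n⌋₊

/-- cell sums -/
noncomputable def Sy (m : ℕ) (c : ℝ) (α : ℕ → ℝ) (F : Finset ℕ) (y : ℕ) : ℝ :=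
  ∑ n ∈ F.filter (fun n => ⌊uu c (lamQ m) n⌋₊ = y), |α n|

lemma Sy_nonneg (F : Finset ℕ) (y : ℕ) : 0 ≤ Sy m c α F y := Finset.sum_nonneg (fun _ _ => abs_nonneg _)

lemma GG_sub (hc : 0 < c) {x u V : ℝ} (hx : 0 ≤ x) (hxu : x ≤ u) (huV : u ≤ V) :
    |GG m c α u - GG m c α x| ≤ V ^ (2 * m + 1) *
      ∑ n ∈ (Finset.Icc 1 ⌊(V / c) ^ (lamQ m)⌋₊).filter (fun n => x < uu c (lamQ m) n ∧ uu c (lamQ m) n ≤ u), |α n| := by
  have hu0 : 0 ≤ u := hx.trans hxu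
  have hV0 : 0 ≤ V := hu0.trans huV
  have hG : ∀ y, 0 ≤ y → y ≤ V → GG m c α y = ∑ n ∈ Finset.Icc 1 ⌊(V / c) ^ (lamQ m)⌋₊,
      if uu c (lamQ m) n ≤ y then α n * uu c (lamQ m) n ^ (2 * m + 1) else 0 := by
    intro y hy hyV
    unfold GG
    rw [← Finset.sum_filter]
    apply Finset.sum_congr _ (fun _ _ => rfl)
    ext n
    rw [Finset.mem_filter, mem_Icc_iff hc hy, mem_Icc_iff hc hV0]
    constructor
    · rintro ⟨h1, h2⟩
      exact ⟨⟨h1, h2.trans hyV⟩, h2⟩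
    · rintro ⟨⟨h1, _⟩, h2⟩
      exact ⟨h1, h2⟩
  rw [hG u hu0 huV, hG x hx (hxu.trans huV), ← Finset.sum_sub_distrib, Finset.sum_filter, Finset.mul_sum]
  refine le_trans (Finset.abs_sum_le_sum_abs _ _) ?_
  apply Finset.sum_le_sum
  intro n hn
  have hn0 := uu_nonneg (m := m) hc n
  by_cases h1 : uu c (lamQ m) n ≤ x
  · rw [if_pos h1, if_pos (h1.trans hxu), if_neg (by intro h; linarith [h.1])]
    simp
  · by_cases h2 : uu c (lamQ m) n ≤ u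
    · rw [if_pos h2, if_neg h1, if_pos ⟨not_le.1 h1, h2⟩, sub_zero, abs_mul, abs_of_nonneg (pow_nonneg hn0 _), mul_comm]
      have := h2.trans huV
      gcongr
    · rw [if_neg h1, if_neg h2, if_neg (fun h => h2 h.2)]
      simp

/-- cells meeting a window -/
lemma window (hc : 0 < c) (F : Finset ℕ) {u θ : ℝ} (hθ : 0 ≤ θ) :
    (∑ n ∈ F.filter (fun n => u - θ < uu c (lamQ m) n ∧ uu c (lamQ m) n ≤ u), |α n|) ^ 2 ≤
      (θ + 2) * ∑ y ∈ (F.image (fun n => ⌊uu c (lamQ m) n⌋₊)).filter (fun y : ℕ => (y : ℝ) ≤ u ∧ u < y + (θ + 1)),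
        Sy m c α F y ^ 2 := by
  set J := (F.image (fun n => ⌊uu c (lamQ m) n⌋₊)).filter (fun y : ℕ => (y : ℝ) ≤ u ∧ u < y + (θ + 1)) with hJ
  have h1 : ∑ n ∈ F.filter (fun n => u - θ < uu c (lamQ m) n ∧ uu c (lamQ m) n ≤ u), |α n| ≤
      ∑ y ∈ J, Sy m c α F y := by
    have hmap : ∀ n ∈ F.filter (fun n => u - θ < uu c (lamQ m) n ∧ uu c (lamQ m) n ≤ u),
        ⌊uu c (lamQ m) n⌋₊ ∈ J := by
      intro n hn
      rw [Finset.mem_filter] at hn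
      rw [hJ, Finset.mem_filter]
      have hn0 := uu_nonneg (m := m) hc n
      refine ⟨Finset.mem_image_of_mem _ hn.1, ?_, ?_⟩
      · exact (Nat.floor_le hn0).trans hn.2.2
      · have := Nat.lt_floor_add_one (uu c (lamQ m) n)
        linarith [hn.2.1]
    rw [← Finset.sum_fiberwise_of_maps_to hmap]
    apply Finset.sum_le_sum
    intro y _
    unfold Sy
    apply Finset.sum_le_sum_of_subset_of_nonneg
    · intro n hn
      rw [Finset.mem_filter] at hn ⊢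
      exact ⟨(Finset.mem_filter.1 hn.1).1, hn.2⟩
    · intro _ _ _
      exact abs_nonneg _
  have h0 : 0 ≤ ∑ n ∈ F.filter (fun n => u - θ < uu c (lamQ m) n ∧ uu c (lamQ m) n ≤ u), |α n| :=
    Finset.sum_nonneg (fun _ _ => abs_nonneg _)
  have hcard : (J.card : ℝ) ≤ θ + 2 := by
    have hsub : J ⊆ Finset.Icc (⌊u⌋₊ - ⌈θ⌉₊) ⌊u⌋₊ := by
      intro y hy
      rw [hJ, Finset.mem_filter] at hy
      obtain ⟨_, hy1, hy2⟩ := hy
      rw [Finset.mem_Icc]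
      constructor
      · have hc1 : θ ≤ ⌈θ⌉₊ := Nat.le_ceil θ
        have hu0 : 0 ≤ u := le_trans (Nat.cast_nonneg y) hy1
        have hf : (⌊u⌋₊ : ℝ) ≤ u := Nat.floor_le hu0
        have : (⌊u⌋₊ : ℝ) < y + ⌈θ⌉₊ + 1 := by linarith
        have h3 : ⌊u⌋₊ < y + ⌈θ⌉₊ + 1 := by exact_mod_cast this
        omega
      · exact Nat.le_floor hy1
    have h4 := Finset.card_le_card hsub
    rw [Nat.card_Icc] at h4
    have h5 : J.card ≤ ⌈θ⌉₊ + 1 := by omega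
    have h6 : (⌈θ⌉₊ : ℝ) < θ + 1 := Nat.ceil_lt_add_one hθ
    have h7 : (J.card : ℝ) ≤ (⌈θ⌉₊ : ℝ) + 1 := by exact_mod_cast h5
    linarith
  calc (∑ n ∈ F.filter (fun n => u - θ < uu c (lamQ m) n ∧ uu c (lamQ m) n ≤ u), |α n|) ^ 2
      ≤ (∑ y ∈ J, Sy m c α F y) ^ 2 := by gcongr
    _ ≤ J.card * ∑ y ∈ J, Sy m c α F y ^ 2 := sq_sum_le_card_mul_sum_sq
    _ ≤ _ := by
      have : 0 ≤ ∑ y ∈ J, Sy m c α F y ^ 2 := Finset.sum_nonneg (fun _ _ => sq_nonneg _)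
      gcongr

/-- weighted version with indicators -/
lemma window2 (hm : 1 ≤ m) (hc : 0 < c) (F : Finset ℕ) {U u θ : ℝ} (hU : 0 < U) (hθ : 0 ≤ θ) (hθU : 2 * θ ≤ U) (hu : U ≤ u) :
    (∑ n ∈ F.filter (fun n => u - θ < uu c (lamQ m) n ∧ uu c (lamQ m) n ≤ u), |α n|) ^ 2 ≤
      (θ + 2) * ((U / 2) ^ (2 * (m : ℝ) - 1 / 4))⁻¹ * ∑ y ∈ F.image (fun n => ⌊uu c (lamQ m) n⌋₊),
        (1 + (y : ℝ)) ^ (2 * (m : ℝ) - 1 / 4) * Sy m c α F y ^ 2 *
          (Ico (y : ℝ) (y + (θ + 1))).indicator (fun _ => (1 : ℝ)) u := by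
  refine le_trans (window hc F hθ) ?_
  rw [mul_assoc]
  apply mul_le_mul_of_nonneg_left _ (by linarith)
  rw [Finset.sum_filter, Finset.mul_sum]
  apply Finset.sum_le_sum
  intro y _
  have hex : 0 < 2 * (m : ℝ) - 1 / 4 := by
    have : (1 : ℝ) ≤ m := by exact_mod_cast hm
    linarith
  by_cases h : (y : ℝ) ≤ u ∧ u < y + (θ + 1)
  · rw [if_pos h, indicator_of_mem (by exact h)]
    have h1 : U / 2 ≤ 1 + (y : ℝ) := by linarith [h.2]
    have h2 : (U / 2) ^ (2 * (m : ℝ) - 1 / 4) ≤ (1 + (y : ℝ)) ^ (2 * (m : ℝ) - 1 / 4) :=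
      Real.rpow_le_rpow (by positivity) h1 hex.le
    have h3 : 0 < (U / 2) ^ (2 * (m : ℝ) - 1 / 4) := by positivity
    rw [mul_one, inv_mul_eq_div, le_div_iff₀ h3, mul_comm]
    gcongr
  · rw [if_neg h, indicator_of_notMem (by exact h)]
    simp

lemma ind_int (a b θ y : ℝ) (hθ : 0 ≤ θ) :
    Integrable (fun u => (Ico y (y + (θ + 1))).indicator (fun _ => (1 : ℝ)) u) (volume.restrict (Ioc a b)) ∧
    ∫ u in Ioc a b, (Ico y (y + (θ + 1))).indicator (fun _ => (1 : ℝ)) u ≤ θ + 1 := by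
  have h1 : Integrable (fun u => (Ico y (y + (θ + 1))).indicator (fun _ => (1 : ℝ)) u) := by
    rw [integrable_indicator_iff measurableSet_Ico]
    have hfin : volume (Ico y (y + (θ + 1))) ≠ ⊤ := by simp
    have hone : ‖(1 : ℝ)‖ₑ ≠ ⊤ := by simp
    exact integrableOn_const hfin hone
  refine ⟨h1.integrableOn, ?_⟩
  refine le_trans (setIntegral_le_integral h1 (ae_of_all _ (fun u => indicator_nonneg (fun _ _ => zero_le_one) u))) ?_
  rw [integral_indicator measurableSet_Ico]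
  simp
  linarith

end Pool.Agent.H295.SM1
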