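import Pool.Agent.H295.SM1.LocalVar

set_option autoImplicit false

/-!
# TaskSM1 (helper295 for helper472): proof
-/

open MeasureTheory Set Filter Topology

namespace Pool.Agent.H295.SM1

open Pool.Agent.H469R10.HO Pool.Agent.H13R3.EM Pool.Agent.H472.Q2

variable {m : ℕ} {c : ℝ} {α : ℕ → ℝ}

lemma GG_ii {K : ℕ} (hc : 0 < c) (hs : Summable (fun n => |α n|)) {u θ : ℝ} (hθ : 0 ≤ θ) (hu : θ ≤ u) :
    IntervalIntegrable (fun v => psi K v * GG m c α (u - θ * v)) volume 0 1 := by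
  have hu0 : 0 ≤ u := hθ.trans hu
  have hB0 : 0 ≤ ∑' n, |α n| := tsum_nonneg (fun n => abs_nonneg _)
  have h1 : IntervalIntegrable (fun v => psi K v * ((∑' n, |α n|) * u ^ (2 * m + 1))) volume 0 1 := by
    apply Continuous.intervalIntegrable
    have := psi_cont K
    fun_prop
  rw [intervalIntegrable_iff_integrableOn_Ioc_of_le (by norm_num)] at h1 ⊢
  refine Integrable.mono' h1 ?_ ?_
  · apply Measurable.aestronglyMeasurable
    have h2 : Measurable (fun v : ℝ => GG m c α (u - θ * v)) := GG_meas.comp (by fun_prop)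
    have h3 := (psi_cont K).measurable
    fun_prop
  · refine (ae_restrict_mem measurableSet_Ioc).mono ?_
    intro v hv
    have h4 : 0 ≤ u - θ * v := by
      have : θ * v ≤ θ * 1 := by
        have := hv.2
        gcongr
      linarith
    have h5 : u - θ * v ≤ u := by
      have : 0 ≤ θ * v := mul_nonneg hθ hv.1.le
      linarith
    rw [norm_mul, Real.norm_of_nonneg (psi_nonneg K v), Real.norm_eq_abs]
    have h6 := GG_bound (m := m) hc hs h4
    have h7 := psi_nonneg K v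
    refine mul_le_mul_of_nonneg_left (h6.trans ?_) h7
    gcongr

/-- decomposition of the quantity to be estimated -/
lemma decomp {K : ℕ} (hc : 0 < c) (hs : Summable (fun n => |α n|)) (Y : ℝ) {u θ V : ℝ} (hθ : 0 ≤ θ) (hu : θ ≤ u) (huV : u ≤ V) :
    |GG m c α u - (-1) ^ (m + 1) * ∫ v in (0:ℝ)..1, psi K v * MS m c α Y (u - θ * v)| ≤
      V ^ (2 * m + 1) * ∑ n ∈ (Finset.Icc 1 ⌊(V / c) ^ (lamQ m)⌋₊).filter
        (fun n => u - θ < uu c (lamQ m) n ∧ uu c (lamQ m) n ≤ u), |α n| +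
      |∫ v in (0:ℝ)..1, psi K v * TT m c α Y (u - θ * v)| := by
  have hu0 : 0 ≤ u := hθ.trans hu
  have hV0 : 0 ≤ V := hu0.trans huV
  have i1 := GG_ii (m := m) (K := K) hc hs hθ hu
  have i2 : IntervalIntegrable (fun v => psi K v * MS m c α Y (u - θ * v)) volume 0 1 := by
    apply Continuous.intervalIntegrable
    have := psi_cont K
    have := MS_cont (m := m) (c := c) (α := α) Y
    fun_prop
  have i3 : IntervalIntegrable (fun v => psi K v * GG m c α u) volume 0 1 := by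
    apply Continuous.intervalIntegrable
    have := psi_cont K
    fun_prop
  have e1 : ∫ v in (0:ℝ)..1, psi K v * TT m c α Y (u - θ * v) =
      (∫ v in (0:ℝ)..1, psi K v * GG m c α (u - θ * v)) -
        (-1) ^ (m + 1) * ∫ v in (0:ℝ)..1, psi K v * MS m c α Y (u - θ * v) := by
    rw [← intervalIntegral.integral_const_mul, ← intervalIntegral.integral_sub i1 (i2.const_mul _)]
    apply intervalIntegral.integral_congr
    intro v _
    simp only [TT]
    ring
  have e2 : GG m c α u = ∫ v in (0:ℝ)..1, psi K v * GG m c α u := by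
    rw [intervalIntegral.integral_mul_const, psi_int, one_mul]
  set W := V ^ (2 * m + 1) * ∑ n ∈ (Finset.Icc 1 ⌊(V / c) ^ (lamQ m)⌋₊).filter
        (fun n => u - θ < uu c (lamQ m) n ∧ uu c (lamQ m) n ≤ u), |α n| with hW
  have e3 : |GG m c α u - ∫ v in (0:ℝ)..1, psi K v * GG m c α (u - θ * v)| ≤ W := by
    have e4 : GG m c α u - ∫ v in (0:ℝ)..1, psi K v * GG m c α (u - θ * v) =
        ∫ v in (0:ℝ)..1, psi K v * (GG m c α u - GG m c α (u - θ * v)) := by
      conv_lhs => rw [e2]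
      rw [← intervalIntegral.integral_sub i3 i1]
      apply intervalIntegral.integral_congr
      intro v _
      simp only
      ring
    rw [e4]
    have e5 : W = ∫ v in (0:ℝ)..1, psi K v * W := by
      rw [intervalIntegral.integral_mul_const, psi_int, one_mul]
    rw [e5, ← Real.norm_eq_abs]
    apply intervalIntegral.norm_integral_le_of_norm_le (by norm_num)
    · refine ae_of_all _ (fun v hv => ?_)
      have h4 : u - θ ≤ u - θ * v := by
        have : θ * v ≤ θ * 1 := by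
          have := hv.2
          gcongr
        linarith
      have h5 : u - θ * v ≤ u := by
        have : 0 ≤ θ * v := mul_nonneg hθ hv.1.le
        linarith
      rw [norm_mul, Real.norm_of_nonneg (psi_nonneg K v), Real.norm_eq_abs]
      apply mul_le_mul_of_nonneg_left _ (psi_nonneg K v)
      refine (GG_sub hc (by linarith) h5 huV).trans ?_
      rw [hW]
      apply mul_le_mul_of_nonneg_left _ (by positivity)
      apply Finset.sum_le_sum_of_subset_of_nonneg
      · intro n hn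
        rw [Finset.mem_filter] at hn ⊢
        exact ⟨hn.1, lt_of_le_of_lt h4 hn.2.1, hn.2.2⟩
      · intro _ _ _
        exact abs_nonneg _
    · apply Continuous.intervalIntegrable
      have := psi_cont K
      fun_prop
  have e6 : GG m c α u - (-1) ^ (m + 1) * ∫ v in (0:ℝ)..1, psi K v * MS m c α Y (u - θ * v) =
      (GG m c α u - ∫ v in (0:ℝ)..1, psi K v * GG m c α (u - θ * v)) +
        ∫ v in (0:ℝ)..1, psi K v * TT m c α Y (u - θ * v) := by
    rw [e1]; ring
  rw [e6]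
  exact (abs_add_le _ _).trans (add_le_add e3 le_rfl)

theorem taskSM1 : TaskSM1 := by
  intro m c M α hD
  have hm := hD.hm
  have hc := hD.hc
  have hs := hD.hs
  set a : ℕ := 80 * m + 44 with ha
  obtain ⟨C, hC0, hC⟩ := LP_bound hD (a + 2) a rfl (by omega) (by omega)
  set K := a + 2 with hK
  have hK0 : K ≠ 0 := by omega
  have hM0 : 0 ≤ M := by
    have := hD.hM ∅
    simpa using this
  set D : ℝ := Real.pi * C * Real.exp 2 with hDdef
  have hD0 : 0 ≤ D := by positivity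
  refine ⟨psi K, 2 * (2 ^ (4 * m + 2) * 6 * 2 ^ (2 * m) * M) + 2 * D ^ 2, 2 ^ 40, psi_cont K, psi_nonneg K, psi_int K,
    by norm_num, ?_⟩
  intro U hU
  have hU1 : (1 : ℝ) ≤ U := le_trans (by norm_num) hU
  have hU0 : 0 < U := by linarith
  -- the parameter x
  set x : ℝ := U ^ (1 / 40 : ℝ) with hx
  have hx0 : 0 < x := by positivity
  have hx40 : x ^ 40 = U := by
    rw [hx, ← Real.rpow_natCast, ← Real.rpow_mul hU0.le]
    norm_num
  have hx2 : 2 ≤ x := by
    by_contra h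
    push Not at h
    have : x ^ 40 < 2 ^ 40 := pow_lt_pow_left₀ h hx0.le (by norm_num)
    rw [hx40] at this
    linarith
  have hx1 : 1 ≤ x := by linarith
  have hY : U ^ (7 / 8 : ℝ) = x ^ 35 := by
    rw [hx, ← Real.rpow_natCast, ← Real.rpow_mul hU0.le]
    norm_num
  have hθ : U ^ (1 / 10 : ℝ) = x ^ 4 := by
    rw [hx, ← Real.rpow_natCast, ← Real.rpow_mul hU0.le]
    norm_num
  rw [hY, hθ]
  set θ : ℝ := x ^ 4 with hθdef
  have hθ1 : 1 ≤ θ := one_le_pow₀ hx1
  have hθ0 : 0 < θ := by linarith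
  have hθU : 2 * θ ≤ U := by
    rw [← hx40, hθdef, show (40 : ℕ) = 36 + 4 by norm_num, pow_add]
    have : (2 : ℝ) ≤ x ^ 36 := le_trans hx2 (le_self_pow₀ hx1 (by norm_num))
    gcongr
  set F := Finset.Icc 1 ⌊(2 * U / c) ^ (lamQ m)⌋₊ with hF
  set E : ℝ := 2 * (m : ℝ) - 1 / 4 with hE
  set G : ℝ → ℝ := fun u => ∑ y ∈ F.image (fun n => ⌊uu c (lamQ m) n⌋₊),
        (1 + (y : ℝ)) ^ E * Sy m c α F y ^ 2 * (Ico (y : ℝ) (y + (θ + 1))).indicator (fun _ => (1 : ℝ)) u with hG
  set P : ℝ := ((2 * U) ^ (2 * m + 1)) ^ 2 * ((θ + 2) * ((U / 2) ^ E)⁻¹) with hP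
  have hP0 : 0 ≤ P := by positivity
  -- pointwise bound
  have hpt : ∀ u ∈ Ioc U (2 * U), (GG m c α u -
      (-1) ^ (m + 1) * ∫ v in (0:ℝ)..1, psi K v * MS m c α (x ^ 35) (u - θ * v)) ^ 2 ≤
      2 * (P * G u) + 2 * D ^ 2 := by
    intro u hu
    have hu1 : U ≤ u := hu.1.le
    have hθu : θ < u := by linarith [hu.1]
    have h1 := decomp (m := m) (K := K) hc hs (x ^ 35) hθ0.le hθu.le hu.2
    set W := ∑ n ∈ (Finset.Icc 1 ⌊(2 * U / c) ^ (lamQ m)⌋₊).filter
        (fun n => u - θ < uu c (lamQ m) n ∧ uu c (lamQ m) n ≤ u), |α n| with hW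
    have hη : 0 < (x ^ 40)⁻¹ := by positivity
    have h2 : |∫ v in (0:ℝ)..1, psi K v * TT m c α (x ^ 35) (u - θ * v)| ≤ D := by
      refine le_trans (TT_smooth (m := m) (η := (x ^ 40)⁻¹) (θ := θ) (C := C) hK0 hc hs (x ^ 35) hη hθ0 ?_ hθu) ?_
      · intro ξ
        exact hC x hx1 (zz (x ^ 40)⁻¹ ξ) (zz_re _ _)
      · rw [hDdef]
        have h3 : (x ^ 40)⁻¹ * u ≤ 2 := by
          rw [hx40, inv_mul_le_iff₀ hU0]
          linarith [hu.2]
        gcongr
    have h4 := window2 (m := m) (α := α) hm hc F hU0 hθ0.le hθU hu1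
    have h5 : ((2 * U) ^ (2 * m + 1) * W) ^ 2 ≤ P * G u := by
      rw [mul_pow, hP, mul_assoc]
      gcongr
    have hW0 : 0 ≤ (2 * U) ^ (2 * m + 1) * W := by
      have : 0 ≤ W := Finset.sum_nonneg (fun _ _ => abs_nonneg _)
      positivity
    set w1 := (2 * U) ^ (2 * m + 1) * W
    set w2 := |∫ v in (0:ℝ)..1, psi K v * TT m c α (x ^ 35) (u - θ * v)|
    have hw2 : 0 ≤ w2 := abs_nonneg _
    rw [← sq_abs]
    calc |GG m c α u - (-1) ^ (m + 1) * ∫ v in (0:ℝ)..1, psi K v * MS m c α (x ^ 35) (u - θ * v)| ^ 2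
        ≤ (w1 + w2) ^ 2 := pow_le_pow_left₀ (abs_nonneg _) h1 2
      _ ≤ 2 * w1 ^ 2 + 2 * w2 ^ 2 := by nlinarith [sq_nonneg (w1 - w2)]
      _ ≤ 2 * (P * G u) + 2 * D ^ 2 := by
        have : w2 ^ 2 ≤ D ^ 2 := pow_le_pow_left₀ hw2 h2 2
        linarith
  -- integration
  have hGi : Integrable G (volume.restrict (Ioc U (2 * U))) := by
    rw [hG]
    apply integrable_finsetSum
    intro y _
    exact ((ind_int U (2 * U) θ y hθ0.le).1).const_mul _
  have hGint : ∫ u in Ioc U (2 * U), G u ≤ (θ + 1) * M := by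
    simp only [hG]
    rw [integral_finsetSum _ (fun (y : ℕ) _ => ((ind_int U (2 * U) θ (y : ℝ) hθ0.le).1).const_mul _)]
    have h6 := hD.hM F
    calc ∑ y ∈ F.image (fun n => ⌊uu c (lamQ m) n⌋₊), ∫ u in Ioc U (2 * U),
          (1 + (y : ℝ)) ^ E * Sy m c α F y ^ 2 * (Ico (y : ℝ) (y + (θ + 1))).indicator (fun _ => (1 : ℝ)) u
        ≤ ∑ y ∈ F.image (fun n => ⌊uu c (lamQ m) n⌋₊), (1 + (y : ℝ)) ^ E * Sy m c α F y ^ 2 * (θ + 1) := by
          apply Finset.sum_le_sum
          intro y _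
          rw [integral_const_mul]
          exact mul_le_mul_of_nonneg_left (ind_int U (2 * U) θ y hθ0.le).2 (by positivity)
      _ = (θ + 1) * ∑ y ∈ F.image (fun n => ⌊uu c (lamQ m) n⌋₊), (1 + (y : ℝ)) ^ E * Sy m c α F y ^ 2 := by
          rw [← Finset.sum_mul, mul_comm]
      _ ≤ (θ + 1) * M := by
          have : 0 ≤ θ + 1 := by linarith
          exact mul_le_mul_of_nonneg_left h6 this
  have hint : ∫ u in U..(2 * U), (GG m c α u -
      (-1) ^ (m + 1) * ∫ v in (0:ℝ)..1, psi K v * MS m c α (x ^ 35) (u - θ * v)) ^ 2 ≤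
      2 * (P * ((θ + 1) * M)) + 2 * D ^ 2 * U := by
    rw [intervalIntegral.integral_of_le (by linarith)]
    have hconst : Integrable (fun _ : ℝ => 2 * D ^ 2) (volume.restrict (Ioc U (2 * U))) :=
      integrable_const _
    calc ∫ u in Ioc U (2 * U), (GG m c α u -
          (-1) ^ (m + 1) * ∫ v in (0:ℝ)..1, psi K v * MS m c α (x ^ 35) (u - θ * v)) ^ 2
        ≤ ∫ u in Ioc U (2 * U), (2 * (P * G u) + 2 * D ^ 2) := by
          apply integral_mono_of_nonneg (ae_of_all _ (fun _ => sq_nonneg _))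
          · exact ((hGi.const_mul P).const_mul 2).add hconst
          · exact (ae_restrict_mem measurableSet_Ioc).mono hpt
      _ = 2 * (P * ∫ u in Ioc U (2 * U), G u) + 2 * D ^ 2 * U := by
          rw [integral_add ((hGi.const_mul P).const_mul 2) hconst, integral_const_mul, integral_const_mul]
          congr 1
          simp
          rw [max_eq_left (by linarith)]
          ring
      _ ≤ _ := by gcongr
  refine hint.trans ?_
  -- final comparison of exponents
  set R : ℝ := U ^ (2 * (m : ℝ) + 5 / 2 - 1 / 20) with hR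
  have hm1 : (1 : ℝ) ≤ m := by exact_mod_cast hm
  have hUR : U ≤ R := by
    calc U = U ^ (1 : ℝ) := (Real.rpow_one U).symm
      _ ≤ R := Real.rpow_le_rpow_of_exponent_le hU1 (by linarith)
  have hPR : P * (θ + 1) ≤ 2 ^ (4 * m + 2) * 6 * 2 ^ (2 * m) * R := by
    have q1 : ((U / 2) ^ E)⁻¹ ≤ 2 ^ (2 * m) * (U ^ E)⁻¹ := by
      rw [Real.div_rpow hU0.le (by norm_num), inv_div, div_eq_mul_inv]
      have : (2 : ℝ) ^ E ≤ 2 ^ (2 * m) := by
        rw [← Real.rpow_natCast]
        apply Real.rpow_le_rpow_of_exponent_le (by norm_num)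
        rw [hE]
        push_cast
        linarith
      gcongr
    have q2 : (θ + 2) * (θ + 1) ≤ 6 * θ ^ 2 := by nlinarith
    have q3 : θ ^ 2 = U ^ (1 / 5 : ℝ) := by
      rw [hθdef, hx, ← pow_mul, ← Real.rpow_natCast, ← Real.rpow_mul hU0.le]
      norm_num
    have q4 : ((2 * U) ^ (2 * m + 1)) ^ 2 = 2 ^ (4 * m + 2) * U ^ (4 * (m : ℝ) + 2) := by
      rw [← pow_mul, mul_pow, show (2 * m + 1) * 2 = 4 * m + 2 by ring, ← Real.rpow_natCast U]
      push_cast
      rfl
    have q5 : U ^ (4 * (m : ℝ) + 2) * (U ^ E)⁻¹ * U ^ (1 / 5 : ℝ) = R := by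
      rw [← Real.rpow_neg hU0.le, ← Real.rpow_add hU0, ← Real.rpow_add hU0, hR, hE]
      congr 1
      ring
    calc P * (θ + 1) = ((2 * U) ^ (2 * m + 1)) ^ 2 * ((U / 2) ^ E)⁻¹ * ((θ + 2) * (θ + 1)) := by
          rw [hP]; ring
      _ ≤ (2 ^ (4 * m + 2) * U ^ (4 * (m : ℝ) + 2)) * (2 ^ (2 * m) * (U ^ E)⁻¹) * (6 * U ^ (1 / 5 : ℝ)) := by
          rw [← q4, ← q3]
          gcongr
      _ = 2 ^ (4 * m + 2) * 6 * 2 ^ (2 * m) * (U ^ (4 * (m : ℝ) + 2) * (U ^ E)⁻¹ * U ^ (1 / 5 : ℝ)) := by ring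
      _ = _ := by rw [q5]
  calc 2 * (P * ((θ + 1) * M)) + 2 * D ^ 2 * U = 2 * ((P * (θ + 1)) * M) + 2 * D ^ 2 * U := by ring
    _ ≤ 2 * ((2 ^ (4 * m + 2) * 6 * 2 ^ (2 * m) * R) * M) + 2 * D ^ 2 * R := by gcongr
    _ = _ := by ring

end Pool.Agent.H295.SM1
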