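import Pool.Agent.H295.SM1.Laplace
import Pool.Agent.H295.SM1.Bump

set_option autoImplicit false

/-!
# TaskSM1, part 4: the transform of `GG - sg MS` and its bound
-/

open MeasureTheory Set Filter Topology

namespace Pool.Agent.H295.SM1

open Pool.Agent.H469R10.HO Pool.Agent.H13R3.EM Pool.Agent.H472.Q2

variable {m : ℕ} {c : ℝ} {α : ℕ → ℝ}

/-- Laplace transform of `GG - sg MS` -/
noncomputable def LL (m : ℕ) (c : ℝ) (α : ℕ → ℝ) (Y : ℝ) (z : ℂ) : ℂ :=
  Th α (uu c (lamQ m)) (2 * m + 1) z / z - (-1) ^ (m + 1) * ∑ n ∈ Finset.Icc 1 ⌊(Y / c) ^ (lamQ m)⌋₊,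
    ((α n * uu c (lamQ m) n ^ (2 * m + 1) : ℝ) : ℂ) *
      ((z ^ (2 * m + 3))⁻¹ * Complex.exp (-((uu c (lamQ m) n : ℂ) * z⁻¹)))

/-- `GG - sg MS` -/
noncomputable def TT (m : ℕ) (c : ℝ) (α : ℕ → ℝ) (Y u : ℝ) : ℝ :=
  GG m c α u - (-1) ^ (m + 1) * MS m c α Y u

lemma BB_cont (m : ℕ) (w : ℝ) : Continuous (BB m w) := by
  unfold BB
  have hm : (0 : ℝ) ≤ m := Nat.cast_nonneg m
  have := Pool.Agent.X88.Bessel.A_cont (ν := 2 * (m : ℝ) + 2) (by linarith)
  fun_prop

lemma BB_bound (m : ℕ) {w x : ℝ} (hw : 0 ≤ w) (hx : 0 ≤ x) :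
    |BB m w x| ≤ Pool.Agent.X88.Bessel.A (2 * m + 2) 0 * x ^ (2 * m + 2) := by
  unfold BB
  have hm : (0 : ℝ) ≤ m := Nat.cast_nonneg m
  have := Pool.Agent.X88.Bessel.A_le (ν := 2 * (m : ℝ) + 2) (by linarith) (t := w * x) (by positivity)
  rw [abs_mul, abs_of_nonneg (pow_nonneg hx _), mul_comm]
  gcongr

lemma MS_cont (Y : ℝ) : Continuous (MS m c α Y) := by
  unfold MS
  have := BB_cont m
  fun_prop

lemma BB_int (m : ℕ) {w : ℝ} (hw : 0 ≤ w) {z : ℂ} (hz : 0 < z.re) :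
    IntegrableOn (fun x : ℝ => (BB m w x : ℂ) * Complex.exp (-(z * x))) (Ioi 0) :=
  int_of_bound (BB_cont m w).measurable (fun _ hx => BB_bound m hw hx) hz

lemma GG_int (hc : 0 < c) (hs : Summable (fun n => |α n|)) {z : ℂ} (hz : 0 < z.re) :
    IntegrableOn (fun x : ℝ => (GG m c α x : ℂ) * Complex.exp (-(z * x))) (Ioi 0) :=
  int_of_bound GG_meas (fun _ hx => GG_bound hc hs hx) hz

lemma TT_exp (Y : ℝ) (z : ℂ) (x : ℝ) : (TT m c α Y x : ℂ) * Complex.exp (-(z * x)) =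
    (GG m c α x : ℂ) * Complex.exp (-(z * x)) - (-1) ^ (m + 1) * ∑ n ∈ Finset.Icc 1 ⌊(Y / c) ^ (lamQ m)⌋₊,
      ((α n * uu c (lamQ m) n ^ (2 * m + 1) : ℝ) : ℂ) * ((BB m (uu c (lamQ m) n) x : ℂ) * Complex.exp (-(z * x))) := by
  unfold TT MS
  rw [Complex.ofReal_sub, Complex.ofReal_mul, Complex.ofReal_sum, sub_mul, mul_assoc, Finset.sum_mul]
  congr 2
  · simp
  · apply Finset.sum_congr rfl
    intro n _
    push_cast
    ring

lemma TT_int (hc : 0 < c) (hs : Summable (fun n => |α n|)) (Y : ℝ) {z : ℂ} (hz : 0 < z.re) :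
    IntegrableOn (fun x : ℝ => (TT m c α Y x : ℂ) * Complex.exp (-(z * x))) (Ioi 0) := by
  simp_rw [TT_exp]
  refine (GG_int hc hs hz).sub (Integrable.const_mul ?_ _)
  apply integrable_finsetSum
  intro n _
  exact (BB_int m (uu_nonneg hc n) hz).const_mul _

lemma lap_TT (hc : 0 < c) (hs : Summable (fun n => |α n|)) (Y : ℝ) {z : ℂ} (hz : 0 < z.re) :
    ∫ x in Ioi (0 : ℝ), (TT m c α Y x : ℂ) * Complex.exp (-(z * x)) = LL m c α Y z := by
  simp_rw [TT_exp]
  rw [integral_sub (GG_int hc hs hz) (Integrable.const_mul (integrable_finsetSum _ (fun n _ =>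
    (BB_int m (uu_nonneg hc n) hz).const_mul _)) _), lap_GG hc hs hz, integral_const_mul,
    integral_finsetSum _ (fun n _ => (BB_int m (uu_nonneg hc n) hz).const_mul _)]
  unfold LL
  congr 2
  apply Finset.sum_congr rfl
  intro n _
  rw [integral_const_mul, lap_BB m (uu_nonneg hc n) hz]

/-- the bound of the transform -/
lemma LP_bound {M : ℝ} (hD : DataSM m c M α) (K a : ℕ) (hK : K = a + 2)
    (ha1 : 40 * (2 * m + 1) + 3 ≤ a) (ha2 : 35 * (2 * m + 1) + 3 * (2 * m + 3) ≤ a) :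
    ∃ C : ℝ, 0 ≤ C ∧ ∀ x : ℝ, 1 ≤ x → ∀ z : ℂ, z.re = (x ^ 40)⁻¹ →
    ‖LL m c α (x ^ 35) z * Psi K ((x ^ 4 : ℝ) * z)‖ ≤ C / (1 + z.im ^ 2) := by
  obtain ⟨C0, hC0, hPs⟩ := Psi_bound K
  have hc := hD.hc
  have hs := hD.hs
  set B : ℝ := ∑' n, |α n| with hB
  have hB0 : 0 ≤ B := tsum_nonneg (fun n => abs_nonneg _)
  set u := uu c (lamQ m) with hu
  have hu0 : ∀ n, 0 ≤ u n := uu_nonneg hc
  set p := 2 * m + 1 with hp
  set k := 34 * p + 40 * (2 * m + 3) with hk
  set C1 : ℝ := B * p.factorial * 4 ^ p * (k.factorial * 4 ^ k) with hC1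
  have hC10 : 0 ≤ C1 := by positivity
  set C2 : ℝ := B * (p.factorial + 1) * C0 with hC2
  have hC20 : 0 ≤ C2 := by positivity
  refine ⟨2 * C1 + 2 * C2, by positivity, ?_⟩
  intro x hx z hz
  have hx0 : 0 < x := by linarith
  have hzre : 0 < z.re := by rw [hz]; positivity
  have hz0 : z ≠ 0 := by
    intro h
    simp [h] at hzre
  have hzn : 0 < ‖z‖ := norm_pos_iff.2 hz0
  have hre : (x ^ 40)⁻¹ ≤ ‖z‖ := by
    rw [← hz]
    exact le_trans (le_abs_self _) (Complex.abs_re_le_norm z)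
  have him : |z.im| ≤ ‖z‖ := Complex.abs_im_le_norm z
  have hY : (0 : ℝ) ≤ x ^ 35 := by positivity
  rw [norm_mul]
  rcases le_or_gt |z.im| ((x ^ 3)⁻¹) with hcase | hcase
  · -- small frequencies
    have hPs1 : ‖Psi K ((x ^ 4 : ℝ) * z)‖ ≤ 1 := by
      apply Psi_one
      rw [Complex.re_ofReal_mul]
      positivity
    have hrel := Th_rel (u := u) hs hu0 p (2 * m + 2) ((-1) ^ (m + 1)) hD.hθ hzre
    have hsg : ((-1 : ℂ) ^ (m + 1)) * (-1) ^ (m + 1) = 1 := by
      rw [← mul_pow]; simp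
    have hLL : LL m c α (x ^ 35) z = (-1) ^ (m + 1) * (z ^ (2 * m + 3))⁻¹ * (Th α u p z⁻¹ -
        ∑ n ∈ Finset.Icc 1 ⌊(x ^ 35 / c) ^ (lamQ m)⌋₊, ((α n * u n ^ p : ℝ) : ℂ) *
          Complex.exp (-((u n : ℂ) * z⁻¹))) := by
      unfold LL
      rw [mul_sub, hrel, Finset.mul_sum, Finset.mul_sum]
      congr 1
      · have h1 : (z ^ (2 * m + 3))⁻¹ * z ^ (2 * m + 2) = z⁻¹ := by
          rw [show 2 * m + 3 = (2 * m + 2) + 1 by ring, pow_succ]
          field_simp
        push_cast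
        calc Th α u p z / z = (((-1 : ℂ) ^ (m + 1)) * (-1) ^ (m + 1)) * ((z ^ (2 * m + 3))⁻¹ * z ^ (2 * m + 2)) * Th α u p z := by
              rw [hsg, h1]; ring
          _ = _ := by ring
      · apply Finset.sum_congr rfl
        intro n _
        ring
    -- the tail
    have hns : Complex.normSq z ≤ 2 * (x ^ 6)⁻¹ := by
      have h1 : z.im ^ 2 ≤ ((x ^ 3)⁻¹) ^ 2 := by
        rw [← sq_abs]
        gcongr
      have h2 : z.re ^ 2 ≤ (x ^ 6)⁻¹ := by
        rw [hz, ← inv_pow, ← inv_pow, ← pow_mul]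
        apply pow_le_pow_of_le_one (by positivity) (inv_le_one_of_one_le₀ hx) (by norm_num)
      rw [Complex.normSq_apply]
      have h3 : ((x ^ 3)⁻¹) ^ 2 = (x ^ 6)⁻¹ := by
        rw [← inv_pow, ← inv_pow, ← pow_mul]
      rw [h3] at h1
      calc z.re * z.re + z.im * z.im = z.re ^ 2 + z.im ^ 2 := by ring
        _ ≤ (x ^ 6)⁻¹ + (x ^ 6)⁻¹ := add_le_add h2 h1
        _ = 2 * (x ^ 6)⁻¹ := by ring
    have hzi : (x ^ 34)⁻¹ / 2 ≤ (z⁻¹).re := by
      rw [Complex.inv_re, hz]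
      have h4 : 0 < Complex.normSq z := Complex.normSq_pos.2 hz0
      rw [div_le_div_iff₀ (by norm_num) h4]
      calc (x ^ 34)⁻¹ * Complex.normSq z ≤ (x ^ 34)⁻¹ * (2 * (x ^ 6)⁻¹) := by gcongr
        _ = (x ^ 40)⁻¹ * 2 := by
          rw [show (x : ℝ) ^ 40 = x ^ 34 * x ^ 6 by ring, mul_inv]
          ring
    have hzi0 : 0 < (z⁻¹).re := lt_of_lt_of_le (by positivity) hzi
    set e : ℝ := (x ^ 34)⁻¹ / 4 with he
    have he0 : 0 < e := by positivity
    have htail : ‖Th α u p z⁻¹ - ∑ n ∈ Finset.Icc 1 ⌊(x ^ 35 / c) ^ (lamQ m)⌋₊, ((α n * u n ^ p : ℝ) : ℂ) *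
          Complex.exp (-((u n : ℂ) * z⁻¹))‖ ≤ Real.exp (-(1 / 4 * x)) * (B * (p.factorial / e ^ p)) := by
      have s1 := (Th_summable hs hu0 p hzi0).hasSum
      have s2 := sum_eq_tsum (m := m) hc hY (fun n => ((α n * u n ^ p : ℝ) : ℂ) *
          Complex.exp (-((u n : ℂ) * z⁻¹))) (by simp [hu, uu_zero, hp])
      have s3 := s1.sub s2
      have s4 := ((summ_exp hs hu0 p he0).hasSum.mul_left (Real.exp (-(1 / 4 * x))))
      refine le_trans (s3.norm_le_of_bounded s4 ?_) ?_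
      · intro n
        by_cases hn : uu c (lamQ m) n ≤ x ^ 35
        · rw [if_pos hn, sub_self, norm_zero]
          positivity
        · rw [if_neg hn, sub_zero, norm_term]
          push Not at hn
          have h5 : Real.exp (-((z⁻¹).re * u n)) ≤ Real.exp (-(1 / 4 * x)) * Real.exp (-(e * u n)) := by
            rw [← Real.exp_add, Real.exp_le_exp]
            have h6 : 1 / 4 * x ≤ e * u n := by
              have : e * x ^ 35 ≤ e * u n := by gcongr
              have h7 : e * x ^ 35 = 1 / 4 * x := by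
                rw [he]
                field_simp
              linarith
            have h8 : 2 * e ≤ (z⁻¹).re := by
              rw [he]; linarith
            have h9 : 2 * e * u n ≤ (z⁻¹).re * u n := mul_le_mul_of_nonneg_right h8 (hu0 n)
            linarith
          calc |α n * u n ^ p| * Real.exp (-((z⁻¹).re * u n)) ≤
              |α n * u n ^ p| * (Real.exp (-(1 / 4 * x)) * Real.exp (-(e * u n))) := by gcongr
            _ = _ := by ring
      · have := tsum_exp hs hu0 p he0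
        gcongr
    have hLLn : ‖LL m c α (x ^ 35) z‖ ≤ C1 := by
      rw [hLL, norm_mul, norm_mul, norm_pow, norm_neg, norm_one, one_pow, one_mul, norm_inv, norm_pow]
      have h10 : (‖z‖ ^ (2 * m + 3))⁻¹ ≤ x ^ (40 * (2 * m + 3)) := by
        rw [pow_mul, ← inv_pow]
        apply pow_le_pow_left₀ (by positivity)
        rw [inv_le_comm₀ hzn (by positivity)]
        exact hre
      calc (‖z‖ ^ (2 * m + 3))⁻¹ * ‖Th α u p z⁻¹ - ∑ n ∈ Finset.Icc 1 ⌊(x ^ 35 / c) ^ (lamQ m)⌋₊,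
            ((α n * u n ^ p : ℝ) : ℂ) * Complex.exp (-((u n : ℂ) * z⁻¹))‖
          ≤ x ^ (40 * (2 * m + 3)) * (Real.exp (-(1 / 4 * x)) * (B * (p.factorial / e ^ p))) := by
            gcongr
        _ = B * p.factorial * 4 ^ p * (x ^ k * Real.exp (-(1 / 4 * x))) := by
            have h20 : (p.factorial : ℝ) / e ^ p = p.factorial * 4 ^ p * x ^ (34 * p) := by
              rw [he, div_pow, inv_pow, ← pow_mul, div_div_eq_mul_div, div_inv_eq_mul]
            rw [h20, hk, pow_add]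
            ring
        _ ≤ B * p.factorial * 4 ^ p * (k.factorial * 4 ^ k) := by
            have := pow_exp k (e := 1 / 4) (by norm_num) hx0.le
            have h11 : (k.factorial : ℝ) / (1 / 4) ^ k = k.factorial * 4 ^ k := by
              rw [one_div, inv_pow, div_inv_eq_mul]
            rw [h11] at this
            gcongr
    have h12 : z.im ^ 2 ≤ 1 := by
      rw [← sq_abs]
      have : (x ^ 3)⁻¹ ≤ 1 := inv_le_one_of_one_le₀ (one_le_pow₀ hx)
      have h13 : |z.im| ≤ 1 := le_trans hcase this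
      exact pow_le_one₀ (abs_nonneg _) h13
    rw [le_div_iff₀ (by positivity)]
    have h14 : ‖LL m c α (x ^ 35) z‖ * ‖Psi K ((x ^ 4 : ℝ) * z)‖ ≤ C1 * 1 := by
      gcongr
    have h15 : 0 ≤ z.im ^ 2 := sq_nonneg _
    calc ‖LL m c α (x ^ 35) z‖ * ‖Psi K ((x ^ 4 : ℝ) * z)‖ * (1 + z.im ^ 2)
        ≤ (C1 * 1) * (1 + 1) := by gcongr
      _ ≤ _ := by linarith
  · -- large frequencies
    have ht0 : 0 < |z.im| := lt_trans (by positivity) hcase
    have hzx : (x ^ 3)⁻¹ ≤ ‖z‖ := le_trans hcase.le him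
    have hinv : ‖z‖⁻¹ ≤ x ^ 3 := by
      rw [inv_le_comm₀ hzn (by positivity)]
      exact hzx
    have h1 : ‖LL m c α (x ^ 35) z‖ ≤ B * (p.factorial + 1) * x ^ a := by
      unfold LL
      refine le_trans (norm_sub_le _ _) ?_
      have a1 : ‖Th α u p z / z‖ ≤ B * p.factorial * x ^ a := by
        rw [norm_div, div_eq_mul_inv]
        have := Th_norm hs hu0 p hzre
        calc ‖Th α u p z‖ * ‖z‖⁻¹ ≤ (B * (p.factorial / z.re ^ p)) * x ^ 3 := by gcongr
          _ = B * p.factorial * x ^ (40 * p + 3) := by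
            rw [hz, inv_pow, div_inv_eq_mul, ← pow_mul, pow_add]
            ring
          _ ≤ _ := by
            have : x ^ (40 * p + 3) ≤ x ^ a := pow_le_pow_right₀ hx ha1
            gcongr
      have a2 : ‖(-1 : ℂ) ^ (m + 1) * ∑ n ∈ Finset.Icc 1 ⌊(x ^ 35 / c) ^ (lamQ m)⌋₊,
          ((α n * u n ^ p : ℝ) : ℂ) * ((z ^ (2 * m + 3))⁻¹ * Complex.exp (-((u n : ℂ) * z⁻¹)))‖ ≤
          B * x ^ a := by
        rw [norm_mul, norm_pow, norm_neg, norm_one, one_pow, one_mul]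
        refine le_trans (norm_sum_le _ _) ?_
        have a3 : ∀ n ∈ Finset.Icc 1 ⌊(x ^ 35 / c) ^ (lamQ m)⌋₊, ‖((α n * u n ^ p : ℝ) : ℂ) *
            ((z ^ (2 * m + 3))⁻¹ * Complex.exp (-((u n : ℂ) * z⁻¹)))‖ ≤ |α n * u n ^ p| * x ^ (3 * (2 * m + 3)) := by
          intro n _
          rw [norm_mul, norm_mul, Complex.norm_real, Real.norm_eq_abs, Complex.norm_exp, norm_inv, norm_pow]
          have a4 : (‖z‖ ^ (2 * m + 3))⁻¹ ≤ x ^ (3 * (2 * m + 3)) := by
            rw [pow_mul, ← inv_pow]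
            exact pow_le_pow_left₀ (by positivity) hinv _
          have a5 : Real.exp ((-((u n : ℂ) * z⁻¹)).re) ≤ 1 := by
            rw [Real.exp_le_one_iff, Complex.neg_re, Complex.re_ofReal_mul, Complex.inv_re]
            have := Complex.normSq_pos.2 hz0
            have := hu0 n
            have : 0 ≤ u n * (z.re / Complex.normSq z) := by positivity
            linarith
          calc |α n * u n ^ p| * ((‖z‖ ^ (2 * m + 3))⁻¹ * Real.exp ((-((u n : ℂ) * z⁻¹)).re))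
              ≤ |α n * u n ^ p| * (x ^ (3 * (2 * m + 3)) * 1) := by gcongr
            _ = _ := by ring
        refine le_trans (Finset.sum_le_sum a3) ?_
        rw [← Finset.sum_mul]
        have a6 := sumabs_bound (m := m) hc hs hY
        calc (∑ n ∈ Finset.Icc 1 ⌊(x ^ 35 / c) ^ (lamQ m)⌋₊, |α n * u n ^ p|) * x ^ (3 * (2 * m + 3))
            ≤ (B * (x ^ 35) ^ (2 * m + 1)) * x ^ (3 * (2 * m + 3)) := by gcongr
          _ = B * x ^ (35 * (2 * m + 1) + 3 * (2 * m + 3)) := by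
            rw [← pow_mul, pow_add]
            ring
          _ ≤ _ := by
            have : x ^ (35 * (2 * m + 1) + 3 * (2 * m + 3)) ≤ x ^ a := pow_le_pow_right₀ hx ha2
            gcongr
      calc _ ≤ B * p.factorial * x ^ a + B * x ^ a := add_le_add a1 a2
        _ = _ := by ring
    have hxz : x ≤ x ^ 4 * ‖z‖ := by
      calc x = x ^ 4 * (x ^ 3)⁻¹ := by field_simp
        _ ≤ _ := by gcongr
    have h2 : ‖Psi K ((x ^ 4 : ℝ) * z)‖ ≤ C0 / (x ^ a * (x ^ 8 * z.im ^ 2)) := by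
      have hx4 : (0 : ℝ) < x ^ 4 := by positivity
      refine le_trans (hPs _ ?_ ?_) ?_
      · exact mul_ne_zero (by exact_mod_cast hx4.ne') hz0
      · rw [Complex.re_ofReal_mul]
        positivity
      · rw [norm_mul, Complex.norm_real, Real.norm_of_nonneg hx4.le]
        have ht2 : 0 < z.im ^ 2 := by rw [← sq_abs]; positivity
        apply div_le_div_of_nonneg_left hC0 (by positivity)
        rw [hK, pow_add]
        apply mul_le_mul
        · exact pow_le_pow_left₀ hx0.le hxz _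
        · rw [mul_pow, ← pow_mul, ← sq_abs]
          gcongr
        · positivity
        · positivity
    have ht2 : 0 < z.im ^ 2 := by rw [← sq_abs]; positivity
    calc ‖LL m c α (x ^ 35) z‖ * ‖Psi K ((x ^ 4 : ℝ) * z)‖
        ≤ (B * (p.factorial + 1) * x ^ a) * (C0 / (x ^ a * (x ^ 8 * z.im ^ 2))) := by
          gcongr
      _ = C2 / (x ^ 8 * z.im ^ 2) := by
          rw [hC2]
          field_simp
      _ ≤ 2 * C2 / (1 + z.im ^ 2) := by
          rw [div_le_div_iff₀ (by positivity) (by positivity)]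
          have h3 : 1 ≤ x ^ 6 * z.im ^ 2 := by
            have : 1 ≤ x ^ 3 * |z.im| := by
              calc (1 : ℝ) = x ^ 3 * (x ^ 3)⁻¹ := by field_simp
                _ ≤ _ := by gcongr
            calc (1 : ℝ) ≤ (x ^ 3 * |z.im|) ^ 2 := one_le_pow₀ this
              _ = _ := by rw [mul_pow, sq_abs]; ring
          have h4 : x ^ 6 ≤ x ^ 8 := pow_le_pow_right₀ hx (by norm_num)
          have h5 : (1 : ℝ) ≤ x ^ 8 := one_le_pow₀ hx
          have h6 : x ^ 6 * z.im ^ 2 ≤ x ^ 8 * z.im ^ 2 := by gcongr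
          have h8 : z.im ^ 2 ≤ x ^ 8 * z.im ^ 2 := le_mul_of_one_le_left ht2.le h5
          have h7 : 1 + z.im ^ 2 ≤ 2 * (x ^ 8 * z.im ^ 2) := by
            calc 1 + z.im ^ 2 ≤ x ^ 8 * z.im ^ 2 + x ^ 8 * z.im ^ 2 := add_le_add (h3.trans h6) h8
              _ = _ := by ring
          calc C2 * (1 + z.im ^ 2) ≤ C2 * (2 * (x ^ 8 * z.im ^ 2)) := by gcongr
            _ = _ := by ring
      _ ≤ _ := by
          gcongr
          linarith

end Pool.Agent.H295.SM1
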